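import Pool.Agent.UIL.Count

/-!
Convergents of `coth (s/2)` for `s = 1, 2` and the solutions of value `s` (helper99).
-/

namespace Pool.Agent.UCF

open Pool.Agent.P30.UnitInterval intervalIntegral MeasureTheory

/-- The partial quotient `(4 n + 2) / s` of the continued fraction of `coth (s / 2)`; for `s = 1, 2` the division is exact:
`2, 6, 10, 14, …` for `s = 1` and `1, 3, 5, 7, …` for `s = 2`. -/
def quot (s n : ℕ) : ℕ := (4 * n + 2) / s

/-- The pairs `(P n, Q n)`: `(1, 0)`, then `(quot s 0, 1)`, and `X (n + 2) = quot s (n + 1) * X (n + 1) + X n` in both entries,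
that is, the continued fraction `[quot s 0; quot s 1, …, quot s (n - 1)]` has the value `P n / Q n` for `n ≥ 1`. -/
def conv (s : ℕ) : ℕ → ℕ × ℕ
  | 0 => (1, 0)
  | 1 => (quot s 0, 1)
  | (n + 2) => (quot s (n + 1) * (conv s (n + 1)).1 + (conv s n).1,
      quot s (n + 1) * (conv s (n + 1)).2 + (conv s n).2)

theorem quot_real {s : ℕ} (hs : s = 1 ∨ s = 2) (n : ℕ) : (quot s n : ℝ) * s = 4 * n + 2 := by
  rcases hs with rfl | rfl
  · simp [quot]
  · have : quot 2 n = 2 * n + 1 := by unfold quot; omega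
    rw [this]; push_cast; ring

theorem quot_ge {s : ℕ} (hs : s = 1 ∨ s = 2) (n : ℕ) : 2 * n + 1 ≤ quot s n := by
  unfold quot
  rcases hs with rfl | rfl <;> omega

theorem hasDerivAt_F (n : ℕ) (x : ℝ) : HasDerivAt (fun x : ℝ => x ^ (n + 1) * (1 - x) ^ (n + 1))
    (((n : ℝ) + 1) * (1 - 2 * x) * (x ^ n * (1 - x) ^ n)) x := by
  have h1 : HasDerivAt (fun x : ℝ => x ^ (n + 1)) (((n + 1 : ℕ) : ℝ) * x ^ n) x := by
    simpa using hasDerivAt_pow (n + 1) x
  have h2 : HasDerivAt (fun x : ℝ => (1 - x)) (-1) x := by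
    simpa using (hasDerivAt_id x).const_sub 1
  have h3 : HasDerivAt (fun x : ℝ => (1 - x) ^ (n + 1)) (((n + 1 : ℕ) : ℝ) * (1 - x) ^ n * (-1)) x := by
    simpa using h2.fun_pow (n + 1)
  refine (h1.fun_mul h3).congr_deriv ?_
  push_cast
  ring

noncomputable def II (s n : ℕ) : ℝ := ∫ x in (0 : ℝ)..1, x ^ n * (1 - x) ^ n * Real.exp (s * x)

theorem II_nonneg (s n : ℕ) : 0 ≤ II s n := by
  unfold II
  apply intervalIntegral.integral_nonneg (by norm_num)
  intro x hx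
  have h1 : 0 ≤ x := hx.1
  have h2 : 0 ≤ 1 - x := by linarith [hx.2]
  positivity

theorem hasDerivAt_e (s : ℕ) (x : ℝ) : HasDerivAt (fun x : ℝ => Real.exp (s * x)) (Real.exp (s * x) * s) x := by
  have h : HasDerivAt (fun x : ℝ => (s : ℝ) * x) (s : ℝ) x := by
    simpa using (hasDerivAt_id x).const_mul (s : ℝ)
  exact h.exp

theorem II_zero (s : ℕ) : (s : ℝ) * II s 0 = Real.exp s - 1 := by
  have h := integral_eq_sub_of_hasDerivAt (a := (0 : ℝ)) (b := 1) (f := fun x : ℝ => Real.exp (s * x))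
    (f' := fun x => Real.exp (s * x) * s) (fun x _ => hasDerivAt_e s x)
    ((by fun_prop : Continuous fun x : ℝ => Real.exp (s * x) * s).intervalIntegrable _ _)
  rw [intervalIntegral.integral_mul_const] at h
  simp only [mul_one, mul_zero, Real.exp_zero] at h
  unfold II
  simp only [pow_zero, one_mul]
  rw [mul_comm]
  exact h

theorem II_one (s : ℕ) : (s : ℝ) ^ 2 * II s 1 + 2 * II s 0 = Real.exp s + 1 := by
  have hd : ∀ x : ℝ, HasDerivAt (fun x : ℝ => ((s : ℝ) * (x ^ (0 + 1) * (1 - x) ^ (0 + 1)) - (1 - 2 * x)) * Real.exp (s * x))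
      ((s : ℝ) ^ 2 * (x ^ 1 * (1 - x) ^ 1 * Real.exp (s * x)) + 2 * (x ^ 0 * (1 - x) ^ 0 * Real.exp (s * x))) x := by
    intro x
    have h1 := (hasDerivAt_F 0 x).const_mul (s : ℝ)
    have h2 : HasDerivAt (fun x : ℝ => (1 - 2 * x)) (-2) x := by
      simpa using ((hasDerivAt_id x).const_mul (2 : ℝ)).const_sub 1
    refine ((h1.fun_sub h2).fun_mul (hasDerivAt_e s x)).congr_deriv ?_
    simp only [Nat.cast_zero]
    ring
  have h := integral_eq_sub_of_hasDerivAt (a := (0 : ℝ)) (b := 1) (fun x _ => hd x)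
    ((by fun_prop : Continuous fun x : ℝ => ((s : ℝ) ^ 2 * (x ^ 1 * (1 - x) ^ 1 * Real.exp (s * x)) + 2 * (x ^ 0 * (1 - x) ^ 0 * Real.exp (s * x)))).intervalIntegrable _ _)
  rw [intervalIntegral.integral_add ((by fun_prop : Continuous fun x : ℝ => ((s : ℝ) ^ 2 * (x ^ 1 * (1 - x) ^ 1 * Real.exp (s * x)))).intervalIntegrable _ _)
    ((by fun_prop : Continuous fun x : ℝ => (2 * (x ^ 0 * (1 - x) ^ 0 * Real.exp (s * x)))).intervalIntegrable _ _),
    intervalIntegral.integral_const_mul, intervalIntegral.integral_const_mul] at h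
  unfold II
  rw [h]
  norm_num

theorem II_rec (s n : ℕ) : (s : ℝ) ^ 2 * II s (n + 2) =
    ((n : ℝ) + 2) * (((n : ℝ) + 1) * II s n - (4 * (n : ℝ) + 6) * II s (n + 1)) := by
  have hd : ∀ x : ℝ, HasDerivAt (fun x : ℝ => ((s : ℝ) * (x ^ (n + 1 + 1) * (1 - x) ^ (n + 1 + 1)) -
      ((n : ℝ) + 2) * ((1 - 2 * x) * (x ^ (n + 1) * (1 - x) ^ (n + 1)))) * Real.exp (s * x))
      ((s : ℝ) ^ 2 * (x ^ (n + 2) * (1 - x) ^ (n + 2) * Real.exp (s * x)) -
        (((n : ℝ) + 2) * ((n : ℝ) + 1) * (x ^ n * (1 - x) ^ n * Real.exp (s * x)) -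
        ((n : ℝ) + 2) * (4 * (n : ℝ) + 6) * (x ^ (n + 1) * (1 - x) ^ (n + 1) * Real.exp (s * x)))) x := by
    intro x
    have h1 := (hasDerivAt_F (n + 1) x).const_mul (s : ℝ)
    have h2 : HasDerivAt (fun x : ℝ => (1 - 2 * x)) (-2) x := by
      simpa using ((hasDerivAt_id x).const_mul (2 : ℝ)).const_sub 1
    have h3 := (h2.fun_mul (hasDerivAt_F n x)).const_mul ((n : ℝ) + 2)
    refine ((h1.fun_sub h3).fun_mul (hasDerivAt_e s x)).congr_deriv ?_
    push_cast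
    simp only [pow_succ]
    ring
  have c : ∀ (A : ℝ) (k : ℕ), IntervalIntegrable (fun x : ℝ => A * (x ^ k * (1 - x) ^ k * Real.exp (s * x))) volume 0 1 :=
    fun A k => (by fun_prop : Continuous fun x : ℝ => A * (x ^ k * (1 - x) ^ k * Real.exp (s * x))).intervalIntegrable _ _
  have h := integral_eq_sub_of_hasDerivAt (a := (0 : ℝ)) (b := 1) (fun x _ => hd x)
    ((c _ _).sub ((c _ _).sub (c _ _)))
  rw [intervalIntegral.integral_sub (c _ _) ((c _ _).sub (c _ _)), intervalIntegral.integral_sub (c _ _) (c _ _),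
    intervalIntegral.integral_const_mul, intervalIntegral.integral_const_mul, intervalIntegral.integral_const_mul] at h
  unfold II
  simp at h
  linarith

noncomputable def K (s n : ℕ) : ℝ := (s : ℝ) ^ n * II s n / (n.factorial : ℝ)

theorem K_nonneg (s n : ℕ) : 0 ≤ K s n := by
  unfold K
  have := II_nonneg s n
  positivity

theorem K_zero (s : ℕ) : K s 0 = II s 0 := by
  simp [K]

theorem K_rec {s : ℕ} (hs : s = 1 ∨ s = 2) (n : ℕ) : K s (n + 2) = K s n - quot s (n + 1) * K s (n + 1) := by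
  have h := II_rec s n
  have hq := quot_real hs (n + 1)
  have hF : ((n.factorial : ℕ) : ℝ) ≠ 0 := by positivity
  have h1 : (((n + 1).factorial : ℕ) : ℝ) = ((n : ℝ) + 1) * n.factorial := by
    rw [Nat.factorial_succ]; push_cast; ring
  have h2 : (((n + 2).factorial : ℕ) : ℝ) = ((n : ℝ) + 2) * (((n : ℝ) + 1) * n.factorial) := by
    rw [Nat.factorial_succ, Nat.factorial_succ]; push_cast; ring
  have e1 : K s (n + 2) = (s : ℝ) ^ n * (((n : ℝ) + 1) * II s n - (4 * (n : ℝ) + 6) * II s (n + 1)) /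
      (((n : ℝ) + 1) * n.factorial) := by
    unfold K
    rw [h2, pow_add, mul_assoc, h]
    field_simp
  have e2 : (quot s (n + 1) : ℝ) * K s (n + 1) = (s : ℝ) ^ n * ((4 * (n : ℝ) + 6) * II s (n + 1)) /
      (((n : ℝ) + 1) * n.factorial) := by
    unfold K
    rw [h1, pow_succ]
    have : (quot s (n + 1) : ℝ) * ((s : ℝ) ^ n * s * II s (n + 1) / (((n : ℝ) + 1) * n.factorial)) =
      (s : ℝ) ^ n * (((quot s (n + 1) : ℝ) * s) * II s (n + 1)) / (((n : ℝ) + 1) * n.factorial) := by ring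
    rw [this, hq]
    push_cast
    ring
  have e3 : K s n = (s : ℝ) ^ n * (((n : ℝ) + 1) * II s n) / (((n : ℝ) + 1) * n.factorial) := by
    unfold K
    field_simp
  rw [e1, e2, e3]
  ring

/-- `coth (s/2)` -/
noncomputable def hh (s : ℕ) : ℝ := (Real.exp s + 1) / (Real.exp s - 1)

theorem exp_pos_sub {s : ℕ} (hs : s = 1 ∨ s = 2) : 0 < Real.exp s - 1 := by
  have h : (0 : ℝ) < s := by rcases hs with rfl | rfl <;> norm_num
  have := Real.add_one_lt_exp h.ne'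
  linarith

theorem K0_pos {s : ℕ} (hs : s = 1 ∨ s = 2) : 0 < K s 0 := by
  have h1 := exp_pos_sub hs
  rw [K_zero]
  have h2 := II_zero s
  have h : (0 : ℝ) < s := by rcases hs with rfl | rfl <;> norm_num
  by_contra hc
  push Not at hc
  nlinarith

theorem K_eq {s : ℕ} (hs : s = 1 ∨ s = 2) (n : ℕ) :
    K s n = (-1) ^ n * (((conv s n).1 : ℝ) - hh s * ((conv s n).2 : ℝ)) * K s 0 ∧
    K s (n + 1) = (-1) ^ (n + 1) * (((conv s (n + 1)).1 : ℝ) - hh s * ((conv s (n + 1)).2 : ℝ)) * K s 0 := by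
  induction n with
  | zero =>
    refine ⟨by simp [conv], ?_⟩
    have h0 : (s : ℝ) ≠ 0 := by rcases hs with rfl | rfl <;> norm_num
    have h1 := II_one s
    have h2 := II_zero s
    have h3 := quot_real hs 0
    have h4 := exp_pos_sub hs
    have h5 : hh s * ((s : ℝ) * II s 0) = Real.exp s + 1 := by
      rw [h2]; unfold hh; field_simp
    have h6 : (s : ℝ) * K s 1 = (s : ℝ) * (-1 * ((quot s 0 : ℝ) - hh s * 1) * K s 0) := by
      rw [K_zero]
      unfold K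
      simp only [pow_one, Nat.factorial_one, Nat.cast_one, div_one]
      have e1 : (s : ℝ) * (-1 * ((quot s 0 : ℝ) - hh s * 1) * II s 0) =
        -((quot s 0 : ℝ) * s) * II s 0 + hh s * ((s : ℝ) * II s 0) := by ring
      rw [e1, h5, h3]
      push_cast
      linarith
    have h7 := mul_left_cancel₀ h0 h6
    simpa [conv] using h7
  | succ n ih =>
    refine ⟨ih.2, ?_⟩
    rw [K_rec hs, ih.1, ih.2]
    simp only [conv]
    push_cast
    ring

noncomputable def D (s n : ℕ) : ℝ := K s n / K s 0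

theorem D_nonneg {s : ℕ} (n : ℕ) : 0 ≤ D s n := div_nonneg (K_nonneg s n) (K_nonneg s 0)

theorem D_rec {s : ℕ} (hs : s = 1 ∨ s = 2) (n : ℕ) : D s (n + 2) = D s n - quot s (n + 1) * D s (n + 1) := by
  unfold D
  rw [K_rec hs]
  ring

theorem D_eq {s : ℕ} (hs : s = 1 ∨ s = 2) (n : ℕ) :
    D s n = (-1) ^ n * (((conv s n).1 : ℝ) - hh s * ((conv s n).2 : ℝ)) := by
  unfold D
  rw [(K_eq hs n).1, mul_div_assoc, div_self (K0_pos hs).ne', mul_one]

theorem D_abs {s : ℕ} (hs : s = 1 ∨ s = 2) (n : ℕ) :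
    |((conv s n).1 : ℝ) - hh s * ((conv s n).2 : ℝ)| = D s n := by
  have h := D_eq hs n
  have h1 := D_nonneg (s := s) n
  rw [← abs_of_nonneg h1, h, abs_mul, abs_pow, abs_neg, abs_one, one_pow, one_mul]

theorem D_wronski {s : ℕ} (hs : s = 1 ∨ s = 2) (n : ℕ) :
    D s n * ((conv s (n + 1)).2 : ℝ) + D s (n + 1) * ((conv s n).2 : ℝ) = 1 := by
  induction n with
  | zero =>
    simp [conv, D, div_self (K0_pos hs).ne']
  | succ n ih =>
    rw [D_rec hs]
    have e : ((conv s (n + 1 + 1)).2 : ℝ) = (quot s (n + 1) : ℝ) * ((conv s (n + 1)).2 : ℝ) + ((conv s n).2 : ℝ) := by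
      simp only [conv]; push_cast; ring
    rw [e]
    linarith

theorem D_le {s : ℕ} (hs : s = 1 ∨ s = 2) (n : ℕ) : D s n * ((conv s (n + 1)).2 : ℝ) ≤ 1 := by
  have h1 := D_wronski hs n
  have h2 := D_nonneg (s := s) (n + 1)
  have h3 : 0 ≤ D s (n + 1) * ((conv s n).2 : ℝ) := mul_nonneg h2 (Nat.cast_nonneg _)
  linarith

theorem q_pos {s : ℕ} (hs : s = 1 ∨ s = 2) (n : ℕ) : 1 ≤ (conv s (n + 1)).2 := by
  induction n with
  | zero => simp [conv]
  | succ n ih =>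
    have h := quot_ge hs (n + 1)
    simp only [conv]
    nlinarith

theorem q_grow {s : ℕ} (hs : s = 1 ∨ s = 2) (n : ℕ) : (2 * n + 1) * (conv s n).2 ≤ (conv s (n + 1)).2 := by
  cases n with
  | zero => simp [conv]
  | succ n =>
    have h := quot_ge hs (n + 1)
    simp only [conv]
    have := Nat.mul_le_mul_right (conv s (n + 1)).2 h
    omega

theorem q_mono {s : ℕ} (hs : s = 1 ∨ s = 2) : Monotone fun n => (conv s n).2 := by
  apply monotone_nat_of_le_succ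
  intro n
  have h := q_grow hs n
  nlinarith [Nat.zero_le ((conv s n).2)]

theorem q_ge {s : ℕ} (hs : s = 1 ∨ s = 2) (n : ℕ) : n ≤ (conv s n).2 := by
  induction n with
  | zero => simp
  | succ n ih =>
    have h := q_grow hs n
    have h1 := q_pos hs n
    rcases Nat.eq_zero_or_pos n with rfl | hn
    · simpa using h1
    · nlinarith

theorem coprime_conv (s n : ℕ) : ((conv s n).1 : ℤ) * (conv s (n + 1)).2 - (conv s (n + 1)).1 * (conv s n).2 = (-1) ^ n := by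
  induction n with
  | zero => simp [conv]
  | succ n ih =>
    have e1 : ((conv s (n + 1 + 1)).2 : ℤ) = (quot s (n + 1) : ℤ) * (conv s (n + 1)).2 + (conv s n).2 := by
      simp only [conv]; push_cast; ring
    have e2 : ((conv s (n + 1 + 1)).1 : ℤ) = (quot s (n + 1) : ℤ) * (conv s (n + 1)).1 + (conv s n).1 := by
      simp only [conv]; push_cast; ring
    rw [e1, e2, pow_succ]
    linarith

theorem coprime' (s n : ℕ) : Nat.Coprime (conv s n).1 (conv s n).2 := by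
  have h := coprime_conv s n
  rw [← Nat.isCoprime_iff_coprime]
  have h2 : ((-1 : ℤ) ^ n) * (-1) ^ n = 1 := by rw [← mul_pow]; simp
  refine ⟨(-1) ^ n * (conv s (n + 1)).2, -((-1) ^ n * (conv s (n + 1)).1), ?_⟩
  have e : (-1 : ℤ) ^ n * (conv s (n + 1)).2 * (conv s n).1 + -((-1) ^ n * (conv s (n + 1)).1) * (conv s n).2 =
      (-1) ^ n * ((conv s n).1 * (conv s (n + 1)).2 - (conv s (n + 1)).1 * (conv s n).2) := by ring
  rw [e, h, h2]

theorem qD_le {s : ℕ} (hs : s = 1 ∨ s = 2) (n : ℕ) : (2 * (n : ℝ) + 1) * (((conv s n).2 : ℝ) * D s n) ≤ 1 := by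
  have h1 := D_le hs n
  have h2 : (2 * (n : ℝ) + 1) * ((conv s n).2 : ℝ) ≤ ((conv s (n + 1)).2 : ℝ) := by exact_mod_cast q_grow hs n
  have h3 := D_nonneg (s := s) n
  nlinarith [mul_le_mul_of_nonneg_left h2 h3]

theorem int_zero {z : ℤ} (h : |(z : ℝ)| < 1) : z = 0 := by
  have : |z| < 1 := by exact_mod_cast h
  exact Int.abs_lt_one_iff.1 this

theorem main_step {s : ℕ} (hs : s = 1 ∨ s = 2) {N : ℕ} (hN : 15 ≤ N) {U V : ℕ} (hV : (conv s N).2 ≤ V)
    (hE : (V : ℝ) * |(U : ℝ) - hh s * V| ≤ 61 / 100) : ∃ n, N ≤ n ∧ U * (conv s n).2 = V * (conv s n).1 := by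
  classical
  have hex : ∃ m, V < (conv s m).2 := ⟨V + 1, by have := q_ge hs (V + 1); omega⟩
  obtain ⟨m, hm⟩ : ∃ m, m = Nat.find hex := ⟨_, rfl⟩
  have hm1 : V < (conv s m).2 := hm ▸ Nat.find_spec hex
  have hNm : N < m := by
    by_contra hc
    push Not at hc
    have := q_mono hs hc
    simp only at this
    omega
  obtain ⟨n, rfl⟩ : ∃ n, m = n + 1 := ⟨m - 1, by omega⟩
  have hn2 : (conv s n).2 ≤ V := by
    have := Nat.find_min hex (m := n) (by omega)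
    omega
  have hnN : N ≤ n := by omega
  have hn15 : (15 : ℝ) ≤ n := by exact_mod_cast le_trans hN hnN
  obtain ⟨E, hEd⟩ : ∃ E : ℝ, E = (U : ℝ) - hh s * V := ⟨_, rfl⟩
  rw [← hEd] at hE
  have hV0 : (0 : ℝ) ≤ V := Nat.cast_nonneg V
  have aE := abs_nonneg E
  -- the identity for both indices
  have key : ∀ k : ℕ, |(((U : ℤ) * (conv s k).2 - V * (conv s k).1 : ℤ) : ℝ)| ≤
      ((conv s k).2 : ℝ) * |E| + V * D s k := by
    intro k
    have e : (((U : ℤ) * (conv s k).2 - V * (conv s k).1 : ℤ) : ℝ) =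
        ((conv s k).2 : ℝ) * E - V * (((conv s k).1 : ℝ) - hh s * ((conv s k).2 : ℝ)) := by
      rw [hEd]; push_cast; ring
    rw [e]
    refine le_trans (abs_sub _ _) ?_
    rw [abs_mul, abs_mul, D_abs hs, abs_of_nonneg hV0, abs_of_nonneg (Nat.cast_nonneg _)]
  have hqn : ((conv s n).2 : ℝ) ≤ V := by exact_mod_cast hn2
  have hqn1 : (V : ℝ) ≤ ((conv s (n + 1)).2 : ℝ) := by exact_mod_cast hm1.le
  have hq0 : (0 : ℝ) ≤ ((conv s n).2 : ℝ) := Nat.cast_nonneg _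
  have D0 := D_nonneg (s := s) n
  have D1 := D_nonneg (s := s) (n + 1)
  have L0 := D_le hs n
  have M0 := qD_le hs n
  have M1 := qD_le hs (n + 1)
  have M0' : ((conv s n).2 : ℝ) * D s n ≤ 1 / 31 := by
    have h0 : 0 ≤ ((conv s n).2 : ℝ) * D s n := mul_nonneg hq0 D0
    nlinarith
  have M1' : ((conv s (n + 1)).2 : ℝ) * D s (n + 1) ≤ 1 / 31 := by
    have h0 : 0 ≤ ((conv s (n + 1)).2 : ℝ) * D s (n + 1) := mul_nonneg (Nat.cast_nonneg _) D1
    push_cast at M1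
    nlinarith
  have fin : ∀ k : ℕ, ((conv s k).2 : ℝ) * |E| + V * D s k < 1 → U * (conv s k).2 = V * (conv s k).1 := by
    intro k hk
    have h1 := int_zero (lt_of_le_of_lt (key k) hk)
    have h2 : ((U * (conv s k).2 : ℕ) : ℤ) = ((V * (conv s k).1 : ℕ) : ℤ) := by push_cast; linarith
    exact_mod_cast h2
  rcases le_or_gt (10 * (V : ℝ)) (9 * ((conv s (n + 1)).2 : ℝ)) with hA | hB
  · refine ⟨n, hnN, fin n ?_⟩
    have v1 : (V : ℝ) * D s n ≤ 9 / 10 := by nlinarith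
    rcases le_or_gt (10 * ((conv s n).2 : ℝ)) V with h10 | h10
    · have : 10 * (((conv s n).2 : ℝ) * |E|) ≤ V * |E| := by nlinarith
      linarith
    · have w1 : ((conv s n).2 : ℝ) * |E| ≤ V * |E| := mul_le_mul_of_nonneg_right hqn aE
      have w2 : (V : ℝ) * D s n ≤ 10 * (((conv s n).2 : ℝ) * D s n) := by nlinarith
      linarith
  · refine ⟨n + 1, by omega, fin (n + 1) ?_⟩
    have w1 : 9 * (((conv s (n + 1)).2 : ℝ) * |E|) ≤ 10 * (V * |E|) := by nlinarith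
    have w2 : (V : ℝ) * D s (n + 1) ≤ ((conv s (n + 1)).2 : ℝ) * D s (n + 1) := mul_le_mul_of_nonneg_right hqn1 D1
    linarith

/-- the multiple -/
theorem multiple {s : ℕ} {n U V : ℕ} (hq : 1 ≤ (conv s n).2)
    (h : U * (conv s n).2 = V * (conv s n).1) : ∃ d, U = d * (conv s n).1 ∧ V = d * (conv s n).2 ∧ U.gcd V = d := by
  have hc := coprime' s n
  have h1 : (conv s n).2 ∣ V := by
    have : (conv s n).2 ∣ V * (conv s n).1 := ⟨U, by rw [← h]; ring⟩
    exact (Nat.Coprime.dvd_of_dvd_mul_right hc.symm this)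
  obtain ⟨d, hd⟩ := h1
  have h2 : U = d * (conv s n).1 := by
    have : U * (conv s n).2 = (d * (conv s n).1) * (conv s n).2 := by rw [h, hd]; ring
    exact Nat.eq_of_mul_eq_mul_right (by omega) this
  refine ⟨d, h2, by rw [hd]; ring, ?_⟩
  have : V = d * (conv s n).2 := by rw [hd]; ring
  rw [h2, this, Nat.gcd_mul_left, hc.gcd_eq_one, mul_one]

theorem limE (s : ℕ) (hs : s = 1 ∨ s = 2) : ∃ M : ℝ, 0 < M ∧ ∃ B : ℕ, ∀ a b m : ℕ, B ≤ b → Sol a b m s →
    |((b - a : ℕ) : ℝ) * |((a + b + 1 : ℕ) : ℝ) - hh s * ((b - a : ℕ) : ℝ)| - Real.sinh s / 6| * ((b - a : ℕ) : ℝ) ^ 2 ≤ M := by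
  obtain ⟨C, hC, B0, hexp⟩ := UIL.expand s
  have hes := exp_pos_sub hs
  have hsp : (0 : ℝ) < s := by rcases hs with rfl | rfl <;> norm_num
  have hsinh : 0 < Real.sinh s := Real.sinh_pos_iff.2 hsp
  obtain ⟨c, hc⟩ : ∃ c : ℝ, c = Real.sinh s / 3 := ⟨_, rfl⟩
  have hc0 : 0 < c := by rw [hc]; positivity
  obtain ⟨M2, hM2⟩ : ∃ M2 : ℝ, M2 = C / 2 + (c + C) ^ 2 / (2 * (Real.exp s - 1)) := ⟨_, rfl⟩
  have hM20 : 0 < M2 := by rw [hM2]; positivity
  obtain ⟨R, hR⟩ : ∃ R : ℝ, R = (Real.exp s - 1 + (c + C)) / 2 := ⟨_, rfl⟩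
  have hR0 : 0 < R := by rw [hR]; positivity
  refine ⟨M2 * R ^ 2, by positivity, B0, ?_⟩
  intro a b m hb h
  obtain ⟨t1, t2⟩ := hexp a b m hb h
  have hab := h.hab
  obtain ⟨q, hq⟩ : ∃ q : ℝ, q = 2 * (a : ℝ) + 1 := ⟨_, rfl⟩
  obtain ⟨p, hp⟩ : ∃ p : ℝ, p = 2 * (b : ℝ) + 1 := ⟨_, rfl⟩
  rw [← hq, ← hp, ← hc] at t1
  rw [← hq, ← hp] at t2
  have ha0 : (0 : ℝ) ≤ a := Nat.cast_nonneg a
  have hb0 : (0 : ℝ) ≤ b := Nat.cast_nonneg b
  have hq1 : 1 ≤ q := by rw [hq]; linarith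
  have hqpos : 0 < q := by linarith
  obtain ⟨x, hx⟩ : ∃ x : ℝ, x = p - Real.exp s * q := ⟨_, rfl⟩
  have hV : (((b - a : ℕ) : ℝ)) = (p - q) / 2 := by
    rw [Nat.cast_sub hab.le, hp, hq]; ring
  have hU : ((a + b + 1 : ℕ) : ℝ) = (p + q) / 2 := by
    rw [hp, hq]; push_cast; ring
  have hE : ((a + b + 1 : ℕ) : ℝ) - hh s * ((b - a : ℕ) : ℝ) = -x / (Real.exp s - 1) := by
    rw [hU, hV, hx]
    unfold hh
    field_simp
    ring
  have hVx : (((b - a : ℕ) : ℝ)) = ((Real.exp s - 1) * q + x) / 2 := by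
    rw [hV, hx]; ring
  rw [hE, hVx, abs_div, abs_neg, abs_of_pos hes]
  have e1 : ((Real.exp s - 1) * q + x) / 2 * (|x| / (Real.exp s - 1)) - Real.sinh s / 6 =
      (q * |x| - c) / 2 + x * |x| / (2 * (Real.exp s - 1)) := by
    rw [hc]
    field_simp
    ring
  rw [e1]
  have hxc : |x - c / q| ≤ C / q ^ 3 := by rw [hx]; exact t1
  have hx1 : |q * |x| - c| ≤ C / q ^ 2 := by
    have h1 : q * |x| - c = q * (|x| - c / q) := by field_simp
    rw [h1, abs_mul, abs_of_pos hqpos]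
    have h2 : |(|x| - c / q)| ≤ |x - c / q| := by
      have h3 : |c / q| = c / q := abs_of_pos (by positivity)
      calc |(|x| - c / q)| = |(|x| - |c / q|)| := by rw [h3]
        _ ≤ |x - c / q| := abs_abs_sub_abs_le _ _
    calc q * |(|x| - c / q)| ≤ q * (C / q ^ 3) := mul_le_mul_of_nonneg_left (le_trans h2 hxc) hqpos.le
      _ = C / q ^ 2 := by field_simp
  have hx2 : |x| ≤ (c + C) / q := by
    have h1 : |x| ≤ |x - c / q| + |c / q| := by
      have := abs_add_le (x - c / q) (c / q)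
      simpa using this
    have h3 : |c / q| = c / q := abs_of_pos (by positivity)
    have h4 : C / q ^ 3 ≤ C / q := by
      apply div_le_div_of_nonneg_left hC.le hqpos
      nlinarith [sq_nonneg (q - 1), mul_pos hqpos hqpos]
    rw [h3] at h1
    have : (c + C) / q = c / q + C / q := by ring
    linarith
  have hx3 : |x| ^ 2 ≤ (c + C) ^ 2 / q ^ 2 := by
    have := pow_le_pow_left₀ (abs_nonneg x) hx2 2
    rwa [div_pow] at this
  have hfin : |(q * |x| - c) / 2 + x * |x| / (2 * (Real.exp s - 1))| ≤ M2 / q ^ 2 := by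
    refine le_trans (abs_add_le _ _) ?_
    rw [abs_div, abs_div, abs_mul, abs_abs, abs_of_pos (by norm_num : (0 : ℝ) < 2),
      abs_of_pos (by positivity : 0 < 2 * (Real.exp (s : ℝ) - 1))]
    have g1 : |q * |x| - c| / 2 ≤ (C / q ^ 2) / 2 := by linarith
    have g2 : |x| * |x| / (2 * (Real.exp s - 1)) ≤ ((c + C) ^ 2 / q ^ 2) / (2 * (Real.exp s - 1)) := by
      apply div_le_div_of_nonneg_right _ (by positivity)
      rw [← sq]; exact hx3
    have g3 : M2 / q ^ 2 = (C / q ^ 2) / 2 + ((c + C) ^ 2 / q ^ 2) / (2 * (Real.exp s - 1)) := by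
      rw [hM2]
      field_simp
    linarith
  have hVR : ((Real.exp s - 1) * q + x) / 2 ≤ R * q := by
    have h0 : 1 ≤ q * q := by
      have := mul_le_mul hq1 hq1 (by norm_num) hqpos.le
      linarith
    have h1 : x ≤ (c + C) * q := by
      have h2 : (c + C) / q ≤ (c + C) * q := by
        rw [div_le_iff₀ hqpos, mul_assoc]
        have := mul_le_mul_of_nonneg_left h0 (add_pos hc0 hC).le
        linarith
      exact le_trans (le_abs_self x) (le_trans hx2 h2)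
    have h3 : R * q = ((Real.exp s - 1) * q + (c + C) * q) / 2 := by rw [hR]; ring
    rw [h3]
    linarith
  have hV0 : 0 ≤ ((Real.exp s - 1) * q + x) / 2 := by rw [← hVx]; exact Nat.cast_nonneg _
  have hV2 : (((Real.exp s - 1) * q + x) / 2) ^ 2 ≤ (R * q) ^ 2 := pow_le_pow_left₀ hV0 hVR 2
  calc |(q * |x| - c) / 2 + x * |x| / (2 * (Real.exp s - 1))| * (((Real.exp s - 1) * q + x) / 2) ^ 2
      ≤ M2 / q ^ 2 * (R * q) ^ 2 := mul_le_mul hfin hV2 (by positivity) (by positivity)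
    _ = M2 * R ^ 2 := by field_simp

theorem y_bounds {s : ℕ} (hs : s = 1 ∨ s = 2) {n : ℕ} (hn : 1 ≤ n) :
    (quot s n : ℝ) * (((conv s n).2 : ℝ) * D s n) ≤ 1 ∧
    (2 * (n : ℝ) - 1) * (1 - (quot s n : ℝ) * (((conv s n).2 : ℝ) * D s n)) ≤ 2 * (((conv s n).2 : ℝ) * D s n) := by
  obtain ⟨k, rfl⟩ : ∃ k, n = k + 1 := ⟨n - 1, by omega⟩
  have w := D_wronski hs (k + 1)
  have e : ((conv s (k + 1 + 1)).2 : ℝ) = (quot s (k + 1) : ℝ) * ((conv s (k + 1)).2 : ℝ) + ((conv s k).2 : ℝ) := by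
    simp only [conv]; push_cast; ring
  have m1 : (2 * (k : ℝ) + 1) * ((conv s k).2 : ℝ) ≤ ((conv s (k + 1)).2 : ℝ) := by exact_mod_cast q_grow hs k
  have D1 := D_nonneg (s := s) (k + 1)
  have D2 := D_nonneg (s := s) (k + 2)
  have D3 := D_nonneg (s := s) (k + 3)
  have r3 := D_rec hs (k + 1)
  have a3 : (2 * (k : ℝ) + 5) ≤ (quot s (k + 1 + 1) : ℝ) := by
    have := quot_ge hs (k + 2)
    have h : ((2 * (k + 2) + 1 : ℕ) : ℝ) ≤ (quot s (k + 2) : ℝ) := by exact_mod_cast this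
    push_cast at h
    have e : quot s (k + 1 + 1) = quot s (k + 2) := rfl
    rw [e]
    linarith
  have z1 : (2 * (k : ℝ) + 1) * D s (k + 2) ≤ D s (k + 1) := by
    have e1 : D s (k + 1 + 2) = D s (k + 3) := rfl
    have e2 : D s (k + 1 + 1) = D s (k + 2) := rfl
    rw [e1, e2] at r3
    nlinarith [mul_le_mul_of_nonneg_right a3 D2]
  have c0 : (0 : ℝ) ≤ ((conv s k).2 : ℝ) := Nat.cast_nonneg _
  have c1 : (0 : ℝ) ≤ ((conv s (k + 1)).2 : ℝ) := Nat.cast_nonneg _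
  have e2 : D s (k + 1 + 1) = D s (k + 2) := rfl
  rw [e, e2] at w
  have u1 := mul_le_mul_of_nonneg_right m1 D1
  have u2 := mul_le_mul_of_nonneg_right z1 c1
  have u3 : 0 ≤ ((conv s k).2 : ℝ) * D s (k + 1) := mul_nonneg c0 D1
  have u4 : 0 ≤ D s (k + 2) * ((conv s (k + 1)).2 : ℝ) := mul_nonneg D2 c1
  constructor
  · nlinarith
  · have e5 : 1 - (quot s (k + 1) : ℝ) * (((conv s (k + 1)).2 : ℝ) * D s (k + 1)) =
        ((conv s k).2 : ℝ) * D s (k + 1) + D s (k + 2) * ((conv s (k + 1)).2 : ℝ) := by linarith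
    rw [e5]
    push_cast
    nlinarith

theorem sinh_bounds {s : ℕ} (hs : s = 1 ∨ s = 2) : 1 ≤ Real.sinh s ∧ Real.sinh s ≤ 3.64 := by
  constructor
  · have h : (0 : ℝ) ≤ s := Nat.cast_nonneg s
    have h1 : (1 : ℝ) ≤ s := by rcases hs with rfl | rfl <;> norm_num
    have := Real.self_le_sinh_iff.2 h
    linarith
  · have h1 : Real.sinh s ≤ Real.sinh 2 := by
      apply Real.sinh_le_sinh.2
      rcases hs with rfl | rfl <;> norm_num
    have h2 := Real.exp_one_lt_d9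
    have h3 := Real.exp_one_gt_d9
    have h4 : Real.exp 2 = Real.exp 1 ^ 2 := by rw [← Real.exp_nat_mul]; norm_num
    have h5 : Real.exp (-2) = (Real.exp 1 ^ 2)⁻¹ := by rw [Real.exp_neg, h4]
    have h6 : Real.exp 1 ^ 2 ≤ 7.3891 := by nlinarith
    have h7 : (0.13 : ℝ) ≤ (Real.exp 1 ^ 2)⁻¹ := by
      rw [le_inv_comm₀ (by norm_num) (by positivity)]
      refine le_trans h6 (by norm_num)
    have h8 : Real.sinh 2 = (Real.exp 2 - Real.exp (-2)) / 2 := Real.sinh_eq 2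
    rw [h4, h5] at h8
    linarith

theorem core {s : ℕ} (hs : s = 1 ∨ s = 2) : ∃ C : ℝ, 0 < C ∧ ∀ N : ℕ, ∃ B : ℕ, ∀ a b m : ℕ, B ≤ b →
    Sol a b m s → ∃ n d : ℕ, N ≤ n ∧ 1 ≤ n ∧ a + b + 1 = d * (conv s n).1 ∧ b - a = d * (conv s n).2 ∧
      (a + b + 1).gcd (b - a) = d ∧ |(d : ℝ) ^ 2 - Real.sinh s / 6 * quot s n| ≤ C / n := by
  obtain ⟨M0, hM0, B1, hB1⟩ := limE s hs
  refine ⟨6 * M0 + 2, by positivity, ?_⟩
  intro N
  obtain ⟨M1, hM1⟩ := exists_nat_ge (1000 * M0)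
  obtain ⟨M, hM⟩ : ∃ M : ℕ, M = max (max N 15) M1 := ⟨_, rfl⟩
  refine ⟨max B1 (2 * (conv s M).2 + 149), ?_⟩
  intro a b m hb h
  have hb1 : B1 ≤ b := le_trans (le_max_left _ _) hb
  have hb2 : 2 * (conv s M).2 + 149 ≤ b := le_trans (le_max_right _ _) hb
  have h13 := thirteen h (by omega : 149 ≤ b)
  have hab := h.hab
  have hVM : (conv s M).2 ≤ b - a := by omega
  have hlim := hB1 a b m hb1 h
  obtain ⟨hs1, hs2⟩ := sinh_bounds hs
  obtain ⟨V, hV⟩ : ∃ V : ℝ, V = ((b - a : ℕ) : ℝ) := ⟨_, rfl⟩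
  obtain ⟨W, hW⟩ : ∃ W : ℝ, W = (((b - a : ℕ)) : ℝ) * |((a + b + 1 : ℕ) : ℝ) - hh s * ((b - a : ℕ) : ℝ)| := ⟨_, rfl⟩
  have hVM' : (M : ℝ) ≤ V := by
    rw [hV]; exact_mod_cast le_trans (q_ge hs M) hVM
  have hM1' : 1000 * M0 ≤ (M : ℝ) := le_trans hM1 (by exact_mod_cast (by omega : M1 ≤ M))
  have hM15 : (15 : ℝ) ≤ M := by exact_mod_cast (by omega : 15 ≤ M)
  have hW1 : |W - Real.sinh s / 6| ≤ 1 / 1000 := by
    rw [← hW, ← hV] at hlim
    have h1 : V ≤ V ^ 2 := by nlinarith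
    have h2 : |W - Real.sinh s / 6| * V ≤ M0 :=
      le_trans (mul_le_mul_of_nonneg_left h1 (abs_nonneg _)) hlim
    have h3 := abs_nonneg (W - Real.sinh s / 6)
    nlinarith
  have hE : W ≤ 61 / 100 := by
    have := (abs_le.1 hW1).2
    have : Real.sinh s / 6 ≤ 3.64 / 6 := by linarith
    norm_num at this
    linarith
  have hE' := hE
  rw [hW] at hE'
  obtain ⟨n, hn, hUV⟩ := main_step hs (by omega : 15 ≤ M) hVM hE'
  obtain ⟨k, rfl⟩ : ∃ k, n = k + 1 := ⟨n - 1, by omega⟩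
  obtain ⟨d, d1, d2, d3⟩ := multiple (q_pos hs k) hUV
  refine ⟨k + 1, d, by omega, by omega, d1, d2, d3, ?_⟩
  obtain ⟨y1, y2⟩ := y_bounds hs (by omega : 1 ≤ k + 1)
  obtain ⟨y, hy⟩ : ∃ y : ℝ, y = ((conv s (k + 1)).2 : ℝ) * D s (k + 1) := ⟨_, rfl⟩
  have hWd : W = (d : ℝ) ^ 2 * y := by
    rw [hW, d1, d2, hy, ← D_abs hs]
    push_cast
    have e : (d : ℝ) * ((conv s (k + 1)).1 : ℝ) - hh s * ((d : ℝ) * ((conv s (k + 1)).2 : ℝ)) =
      d * (((conv s (k + 1)).1 : ℝ) - hh s * ((conv s (k + 1)).2 : ℝ)) := by ring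
    rw [e, abs_mul, abs_of_nonneg (Nat.cast_nonneg d : (0 : ℝ) ≤ (d : ℝ))]
    ring
  rw [← hy] at y1 y2
  obtain ⟨A, hA⟩ : ∃ A : ℝ, A = (quot s (k + 1) : ℝ) := ⟨_, rfl⟩
  rw [← hA] at y1 y2 ⊢
  obtain ⟨v, hv⟩ : ∃ v : ℝ, v = ((k + 1 : ℕ) : ℝ) := ⟨_, rfl⟩
  rw [← hv] at y2 ⊢
  have hv15 : 15 ≤ v := by rw [hv]; exact le_trans hM15 (by exact_mod_cast hn)
  have hA0 : 0 ≤ A := by rw [hA]; exact Nat.cast_nonneg _
  have hA6 : A ≤ 6 * v := by
    have h1 : quot s (k + 1) ≤ 4 * (k + 1) + 2 := by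
      unfold quot
      exact Nat.div_le_self _ _
    have h2 : (quot s (k + 1) : ℝ) ≤ ((4 * (k + 1) + 2 : ℕ) : ℝ) := by exact_mod_cast h1
    rw [hA]
    refine le_trans h2 ?_
    push_cast
    push_cast at hv
    nlinarith
  have hd2 : 0 ≤ (d : ℝ) ^ 2 := by positivity
  -- V is at least v
  have hd1 : 1 ≤ d := by
    rcases Nat.eq_zero_or_pos d with h0 | h0
    · rw [h0, zero_mul] at d2; omega
    · exact h0
  have hVv : v ≤ V := by
    rw [hV, hv]
    have h1 := q_ge hs (k + 1)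
    have h2 : (conv s (k + 1)).2 ≤ b - a := by rw [d2]; exact Nat.le_mul_of_pos_left _ hd1
    exact_mod_cast le_trans h1 h2
  have hWA : |W - Real.sinh s / 6| * A ≤ 6 * M0 / v := by
    rw [← hW, ← hV] at hlim
    rw [le_div_iff₀ (by linarith)]
    have h3 := abs_nonneg (W - Real.sinh s / 6)
    have h1 : v ^ 2 ≤ V ^ 2 := pow_le_pow_left₀ (by linarith) hVv 2
    have h2 : |W - Real.sinh s / 6| * v ^ 2 ≤ M0 := le_trans (mul_le_mul_of_nonneg_left h1 h3) hlim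
    have h4 : |W - Real.sinh s / 6| * A * v ≤ |W - Real.sinh s / 6| * (6 * v) * v := by
      apply mul_le_mul_of_nonneg_right _ (by linarith)
      exact mul_le_mul_of_nonneg_left hA6 h3
    nlinarith
  have l1 : W * A ≤ (d : ℝ) ^ 2 := by
    have := mul_le_mul_of_nonneg_left y1 hd2
    rw [hWd]
    linarith
  have l2 : (d : ℝ) ^ 2 - W * A ≤ 2 / v := by
    rw [le_div_iff₀ (by linarith)]
    have h1 := mul_le_mul_of_nonneg_left y2 hd2
    have h2 : (d : ℝ) ^ 2 * (2 * y) = 2 * W := by rw [hWd]; ring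
    have h3 : (d : ℝ) ^ 2 * ((2 * v - 1) * (1 - A * y)) = (2 * v - 1) * ((d : ℝ) ^ 2 - W * A) := by rw [hWd]; ring
    rw [h2, h3] at h1
    nlinarith
  have l3 : |(d : ℝ) ^ 2 - Real.sinh s / 6 * A| ≤ |(d : ℝ) ^ 2 - W * A| + |W - Real.sinh s / 6| * A := by
    have e1 : (d : ℝ) ^ 2 - Real.sinh s / 6 * A = ((d : ℝ) ^ 2 - W * A) + (W - Real.sinh s / 6) * A := by ring
    rw [e1]
    refine le_trans (abs_add_le _ _) ?_
    rw [abs_mul (W - Real.sinh s / 6) A, abs_of_nonneg hA0]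
  rw [abs_of_nonneg (by linarith : 0 ≤ (d : ℝ) ^ 2 - W * A)] at l3
  have e2 : (6 * M0 + 2) / v = 6 * M0 / v + 2 / v := by ring
  rw [e2]
  linarith

end Pool.Agent.UCF
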