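import Pool.Agent.UCF.Main

/-!
The finer law for the multiple `d` of the convergent, the gap principle for three members and the count
(helper99, helper23; the proof of `triple3` follows `Pool.Agent.UIL.triple`, helper75).
-/

namespace Pool.Agent.UCF

open Pool.Agent.P30.UnitInterval

theorem fine {A h w z u v : ℝ} (hh : 0 ≤ h) (hh4 : h ≤ 4) (hA : 16 ≤ A) (hw : 0 ≤ w) (hw1 : w * (A - 2 * h) ≤ 1)
    (hz : 0 ≤ z) (hz1 : z * (A + 2 * h) ≤ 1) (hu : u * (A - h + w) = 1) (hv : v * (A + h + z) = 1) :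
    |u + v - 2 / A| ≤ 88 / A ^ 3 := by
  have hA0 : 0 < A := by linarith
  have a1 : A * w ≤ 2 := by nlinarith
  have a2 : A * z ≤ 1 := by nlinarith
  have b1 : 3 / 4 * A ≤ A - h + w := by linarith
  have b2 : A ≤ A + h + z := by linarith
  have c1 : u = 1 / (A - h + w) := by rw [eq_div_iff (by linarith)]; exact hu
  have c2 : v = 1 / (A + h + z) := by rw [eq_div_iff (by linarith)]; exact hv
  have e : u + v - 2 / A = (2 * (h - w) * (h + z) - A * w - A * z) / (A * (A - h + w) * (A + h + z)) := by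
    rw [c1, c2]
    have h1 : A - h + w ≠ 0 := by linarith
    have h2 : A + h + z ≠ 0 := by linarith
    field_simp
    ring
  have hp1 : 0 < A - h + w := by linarith
  have hp2 : 0 < A + h + z := by linarith
  have hp3 : 0 < |A * (A - h + w) * (A + h + z)| := abs_pos.2 (mul_pos (mul_pos hA0 hp1) hp2).ne'
  rw [e, abs_div, div_le_div_iff₀ hp3 (by positivity)]
  have hw2 : w ≤ 1 := by nlinarith
  have hz2 : z ≤ 1 := by nlinarith
  have n1 : |2 * (h - w) * (h + z) - A * w - A * z| ≤ 43 := by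
    rw [abs_le]
    constructor <;> nlinarith [mul_nonneg hh hz, mul_nonneg hh hw, mul_nonneg hw hz, mul_nonneg hA0.le hw, mul_nonneg hA0.le hz]
  have d1 : 3 / 4 * A ^ 3 ≤ |A * (A - h + w) * (A + h + z)| := by
    rw [abs_of_pos (mul_pos (mul_pos hA0 hp1) hp2)]
    have h1 : 3 / 4 * A * A ≤ (A - h + w) * (A + h + z) := mul_le_mul b1 b2 hA0.le (by linarith)
    have h2 := mul_le_mul_of_nonneg_left h1 hA0.le
    nlinarith
  have hA3 : 0 ≤ A ^ 3 := by positivity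
  have h3 := mul_le_mul_of_nonneg_right n1 hA3
  linarith

theorem quot_succ {s : ℕ} (hs : s = 1 ∨ s = 2) (n : ℕ) : (quot s (n + 1) : ℝ) = quot s n + 4 / s := by
  have h1 := quot_real hs n
  have h2 := quot_real hs (n + 1)
  push_cast at h2
  have hs0 : (0 : ℝ) < s := by rcases hs with rfl | rfl <;> norm_num
  field_simp
  linarith

theorem D_pos {s : ℕ} (hs : s = 1 ∨ s = 2) (n : ℕ) : 0 < D s n := by
  rcases (D_nonneg (s := s) n).lt_or_eq with h | h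
  · exact h
  · exfalso
    have w := D_wronski hs n
    have r := D_rec hs n
    have h2 := D_nonneg (s := s) (n + 2)
    rw [← h] at w r
    have q1 := quot_ge hs (n + 1)
    have q2 : (1 : ℝ) ≤ quot s (n + 1) := by exact_mod_cast (by omega : 1 ≤ quot s (n + 1))
    have h1 := D_nonneg (s := s) (n + 1)
    have h3 : D s (n + 1) = 0 := by nlinarith
    rw [h3] at w
    linarith

/-- the value of `1 / (Q n * |P n - coth (s / 2) * Q n|)` -/
theorem y_fine {s : ℕ} (hs : s = 1 ∨ s = 2) {n : ℕ} (hn : 15 ≤ n) :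
    ∃ r : ℝ, |r - 2 / (quot s n : ℝ)| ≤ 88 / (quot s n : ℝ) ^ 3 ∧
      ((quot s n : ℝ) + r) * (((conv s n).2 : ℝ) * D s n) = 1 := by
  obtain ⟨k, rfl⟩ : ∃ k, n = k + 3 := ⟨n - 3, by omega⟩
  have hk : (12 : ℝ) ≤ k := by exact_mod_cast (by omega : 12 ≤ k)
  obtain ⟨h, hh⟩ : ∃ h : ℝ, h = 4 / s := ⟨_, rfl⟩
  have hh0 : 0 ≤ h := by rw [hh]; positivity
  have hh4 : h ≤ 4 := by rw [hh]; rcases hs with rfl | rfl <;> norm_num
  obtain ⟨A, hA⟩ : ∃ A : ℝ, A = (quot s (k + 3) : ℝ) := ⟨_, rfl⟩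
  have A2 : (quot s (k + 2) : ℝ) = A - h := by
    have := quot_succ hs (k + 2)
    rw [hA, hh]
    linarith
  have A1 : (quot s (k + 1) : ℝ) = A - 2 * h := by
    have := quot_succ hs (k + 1)
    rw [A2, ← hh] at this
    linarith
  have A4 : (quot s (k + 4) : ℝ) = A + h := by
    have := quot_succ hs (k + 3)
    rw [← hA, ← hh] at this
    exact this
  have A5 : (quot s (k + 5) : ℝ) = A + 2 * h := by
    have := quot_succ hs (k + 4)
    rw [A4, ← hh] at this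
    linarith
  have hA16 : 16 ≤ A := by
    have h1 : (2 * (k + 3) + 1 : ℝ) ≤ quot s (k + 3) := by exact_mod_cast quot_ge hs (k + 3)
    rw [hA]; linarith
  have Q1 : 0 < ((conv s (k + 1)).2 : ℝ) := by exact_mod_cast q_pos hs k
  have Q2 : 0 < ((conv s (k + 2)).2 : ℝ) := by exact_mod_cast q_pos hs (k + 1)
  have Q3 : 0 < ((conv s (k + 3)).2 : ℝ) := by exact_mod_cast q_pos hs (k + 2)
  have Q0 : (0 : ℝ) ≤ ((conv s k).2 : ℝ) := Nat.cast_nonneg _
  have E2 : ((conv s (k + 2)).2 : ℝ) = (A - 2 * h) * ((conv s (k + 1)).2 : ℝ) + ((conv s k).2 : ℝ) := by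
    rw [← A1]; simp only [conv]; push_cast; ring
  have E3 : ((conv s (k + 3)).2 : ℝ) = (A - h) * ((conv s (k + 2)).2 : ℝ) + ((conv s (k + 1)).2 : ℝ) := by
    rw [← A2]; simp only [conv]; push_cast; ring
  have E4 : ((conv s (k + 4)).2 : ℝ) = A * ((conv s (k + 3)).2 : ℝ) + ((conv s (k + 2)).2 : ℝ) := by
    rw [hA]; simp only [conv]; push_cast; ring
  have D3 := D_pos hs (k + 3)
  have D4 := D_pos hs (k + 4)
  have D5 := D_pos hs (k + 5)
  have D6 := D_pos hs (k + 6)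
  have R5 : D s (k + 5) = D s (k + 3) - (A + h) * D s (k + 4) := by
    rw [← A4]; exact D_rec hs (k + 3)
  have R6 : D s (k + 6) = D s (k + 4) - (A + 2 * h) * D s (k + 5) := by
    rw [← A5]; exact D_rec hs (k + 4)
  have W := D_wronski hs (k + 3)
  have W' : D s (k + 3) * ((conv s (k + 4)).2 : ℝ) + D s (k + 4) * ((conv s (k + 3)).2 : ℝ) = 1 := W
  refine ⟨((conv s (k + 2)).2 : ℝ) / ((conv s (k + 3)).2 : ℝ) + D s (k + 4) / D s (k + 3), ?_, ?_⟩
  · rw [← hA]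
    apply fine (w := ((conv s (k + 1)).2 : ℝ) / ((conv s (k + 2)).2 : ℝ)) (z := D s (k + 5) / D s (k + 4)) hh0 hh4 hA16
      (by positivity)
    · rw [div_mul_eq_mul_div, div_le_one Q2, E2]
      linarith
    · positivity
    · rw [div_mul_eq_mul_div, div_le_one D4]
      linarith
    · rw [div_mul_eq_mul_div, div_eq_one_iff_eq Q3.ne', E3]
      field_simp
    · rw [div_mul_eq_mul_div, div_eq_one_iff_eq D3.ne']
      field_simp
      rw [R5]
      ring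
  · rw [← hA]
    rw [E4] at W'
    field_simp
    linarith

/-- the index of the convergent is odd -/
theorem odd_index {s : ℕ} (hs : s = 1 ∨ s = 2) : ∃ B : ℕ, ∀ a b m : ℕ, B ≤ b → Sol a b m s →
    ∀ n d : ℕ, a + b + 1 = d * (conv s n).1 → b - a = d * (conv s n).2 → Odd n := by
  obtain ⟨C, hC, B0, hexp⟩ := UIL.expand s
  have hs1 : (1 : ℝ) ≤ s := by rcases hs with rfl | rfl <;> norm_num
  obtain ⟨hsh, -⟩ := sinh_bounds hs
  obtain ⟨Q0, hQ0⟩ := exists_nat_ge (3 * C)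
  obtain ⟨B2, hB2, -⟩ := UIL.large s Q0
  refine ⟨max B0 B2, ?_⟩
  intro a b m hb h n d h1 h2
  have e1 := (hexp a b m (le_trans (le_max_left _ _) hb) h).1
  have e2 := (hB2 a b m (le_trans (le_max_right _ _) hb) h).1
  have hab := h.hab
  have e2r : (Q0 : ℝ) ≤ a := by exact_mod_cast e2
  obtain ⟨q, hq⟩ : ∃ q : ℝ, q = 2 * (a : ℝ) + 1 := ⟨_, rfl⟩
  have ha0 : (0 : ℝ) ≤ a := Nat.cast_nonneg a
  have hq1 : 1 ≤ q := by rw [hq]; linarith
  have hqC : 3 * C < q := by rw [hq]; linarith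
  rw [← hq] at e1
  have hpos : 0 < (2 * (b : ℝ) + 1) - Real.exp s * q := by
    have h3 : C / q ^ 3 < Real.sinh s / 3 / q := by
      rw [div_lt_div_iff₀ (by positivity) (by linarith)]
      have h4 : q ≤ q ^ 2 := by nlinarith
      have h5 : 3 * C < q ^ 2 := by linarith
      have h6 : C * q < q ^ 2 / 3 * q := mul_lt_mul_of_pos_right (by linarith) (by linarith)
      have h7 : q ^ 2 / 3 * q ≤ Real.sinh s / 3 * q ^ 3 := by
        have : q ^ 2 / 3 * q = 1 / 3 * q ^ 3 := by ring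
        rw [this]
        exact mul_le_mul_of_nonneg_right (by linarith) (by positivity)
      linarith
    rw [abs_le] at e1
    linarith [e1.1]
  have hE := exp_pos_sub hs
  have hU : ((a + b + 1 : ℕ) : ℝ) - hh s * ((b - a : ℕ) : ℝ) < 0 := by
    have h3 : (((a + b + 1 : ℕ) : ℝ) - hh s * ((b - a : ℕ) : ℝ)) * (Real.exp s - 1) =
        -((2 * (b : ℝ) + 1) - Real.exp s * q) := by
      unfold hh
      rw [Nat.cast_sub hab.le, hq]
      push_cast
      field_simp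
      ring
    by_contra hc
    push Not at hc
    have := mul_nonneg hc hE.le
    rw [h3] at this
    linarith
  by_contra hodd
  rw [Nat.not_odd_iff_even] at hodd
  have hD := D_eq hs n
  rw [hodd.neg_one_pow, one_mul] at hD
  have hDp := D_pos hs n
  rw [h1, h2] at hU
  push_cast at hU
  have h4 : (d : ℝ) * ((conv s n).1 : ℝ) - hh s * ((d : ℝ) * ((conv s n).2 : ℝ)) = d * D s n := by
    rw [hD]; ring
  rw [h4] at hU
  have : 0 ≤ (d : ℝ) * D s n := mul_nonneg (Nat.cast_nonneg d) hDp.le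
  linarith

/-- the finer form of `core` -/
theorem core2 {s : ℕ} (hs : s = 1 ∨ s = 2) : ∃ C : ℝ, 0 < C ∧ ∀ N : ℕ, ∃ B : ℕ, ∀ a b m : ℕ, B ≤ b →
    Sol a b m s → ∃ n d : ℕ, N ≤ n ∧ 1 ≤ n ∧ Odd n ∧ a + b + 1 = d * (conv s n).1 ∧ b - a = d * (conv s n).2 ∧
      (a + b + 1).gcd (b - a) = d ∧
      |(d : ℝ) ^ 2 - Real.sinh s / 6 * (quot s n + 2 / quot s n)| ≤ C / (quot s n : ℝ) ^ 3 := by
  obtain ⟨M0, hM0, B1, hB1⟩ := limE s hs
  obtain ⟨C1, hC1, hcore⟩ := core hs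
  obtain ⟨hs1, hs2⟩ := sinh_bounds hs
  obtain ⟨B3, hB3⟩ := odd_index hs
  refine ⟨2000 * M0 + 88, by positivity, ?_⟩
  intro N
  obtain ⟨B2, hB2⟩ := hcore (max N 15)
  refine ⟨max (max B1 B2) B3, ?_⟩
  intro a b m hb h
  have hb12 : max B1 B2 ≤ b := le_trans (le_max_left _ _) hb
  obtain ⟨n, d, n1, n0, d1, d2, d3, -⟩ := hB2 a b m (le_trans (le_max_right _ _) hb12) h
  have hlim := hB1 a b m (le_trans (le_max_left _ _) hb12) h
  have hodd := hB3 a b m (le_trans (le_max_right _ _) hb) h n d d1 d2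
  have hn15 : 15 ≤ n := le_trans (le_max_right _ _) n1
  refine ⟨n, d, le_trans (le_max_left _ _) n1, n0, hodd, d1, d2, d3, ?_⟩
  obtain ⟨r, r1, r2⟩ := y_fine hs hn15
  obtain ⟨y, hy⟩ : ∃ y : ℝ, y = ((conv s n).2 : ℝ) * D s n := ⟨_, rfl⟩
  obtain ⟨W, hW⟩ : ∃ W : ℝ, W = (((b - a : ℕ)) : ℝ) * |((a + b + 1 : ℕ) : ℝ) - hh s * ((b - a : ℕ) : ℝ)| := ⟨_, rfl⟩
  have hWd : W = (d : ℝ) ^ 2 * y := by
    rw [hW, d1, d2, hy, ← D_abs hs]
    push_cast
    have e : (d : ℝ) * ((conv s n).1 : ℝ) - hh s * ((d : ℝ) * ((conv s n).2 : ℝ)) =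
      d * (((conv s n).1 : ℝ) - hh s * ((conv s n).2 : ℝ)) := by ring
    rw [e, abs_mul, abs_of_nonneg (Nat.cast_nonneg d : (0 : ℝ) ≤ (d : ℝ))]
    ring
  rw [← hy] at r2
  rw [← hW] at hlim
  obtain ⟨A, hA⟩ : ∃ A : ℝ, A = (quot s n : ℝ) := ⟨_, rfl⟩
  rw [← hA] at r1 r2 ⊢
  obtain ⟨V, hV⟩ : ∃ V : ℝ, V = ((b - a : ℕ) : ℝ) := ⟨_, rfl⟩
  rw [← hV] at hlim
  have hn15r : (15 : ℝ) ≤ n := by exact_mod_cast hn15
  have hAn : (2 * n + 1 : ℝ) ≤ A := by rw [hA]; exact_mod_cast quot_ge hs n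
  have hA6 : A ≤ 5 * n := by
    have h1 : quot s n ≤ 4 * n + 2 := by
      unfold quot
      exact Nat.div_le_self _ _
    have h2 : (quot s n : ℝ) ≤ ((4 * n + 2 : ℕ) : ℝ) := by exact_mod_cast h1
    rw [hA]
    refine le_trans h2 ?_
    push_cast
    linarith
  have hVA : (n : ℝ) ^ 2 ≤ V := by
    obtain ⟨k, rfl⟩ : ∃ k, n = k + 2 := ⟨n - 2, by omega⟩
    have g1 := q_grow hs (k + 1)
    have g2 := q_grow hs k
    have g3 : 1 ≤ (conv s k).2 := by
      obtain ⟨j, rfl⟩ : ∃ j, k = j + 1 := ⟨k - 1, by omega⟩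
      exact q_pos hs j
    have hd0 : 1 ≤ d := by
      rcases Nat.eq_zero_or_pos d with h0 | h0
      · rw [h0, zero_mul] at d2
        have := h.hab
        omega
      · exact h0
    have g4 : (k + 2) ^ 2 ≤ (conv s (k + 2)).2 := by
      have : (k + 2) ^ 2 ≤ (2 * (k + 1) + 1) * ((2 * k + 1) * 1) := by nlinarith
      refine le_trans this ?_
      refine le_trans ?_ g1
      apply Nat.mul_le_mul_left
      exact le_trans (Nat.mul_le_mul_left _ g3) g2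
    have g5 : (k + 2) ^ 2 ≤ b - a := by
      rw [d2]
      exact le_trans g4 (Nat.le_mul_of_pos_left _ hd0)
    rw [hV]
    exact_mod_cast g5
  have hA0 : 0 < A := by linarith
  have hV0 : 0 ≤ V := le_trans (by positivity) hVA
  have hVA4 : A ^ 4 ≤ 625 * V ^ 2 := by
    have h1 : ((n : ℝ) ^ 2) ^ 2 ≤ V ^ 2 := pow_le_pow_left₀ (by positivity) hVA 2
    have h2 : A ^ 4 ≤ (5 * n) ^ 4 := pow_le_pow_left₀ hA0.le hA6 4
    nlinarith
  have hr : |r| ≤ 1 := by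
    have h1 : |r| ≤ |r - 2 / A| + |2 / A| := by
      have : r = (r - 2 / A) + 2 / A := by ring
      conv_lhs => rw [this]
      exact abs_add_le _ _
    have h2 : |2 / A| ≤ 1 / 8 := by
      rw [abs_of_pos (by positivity), div_le_div_iff₀ hA0 (by norm_num)]
      linarith
    have h3 : 88 / A ^ 3 ≤ 1 / 8 := by
      rw [div_le_div_iff₀ (by positivity) (by norm_num)]
      have : (16 : ℝ) ^ 3 ≤ A ^ 3 := pow_le_pow_left₀ (by norm_num) (by linarith) 3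
      norm_num at this
      linarith
    linarith
  have hd : (d : ℝ) ^ 2 = W * (A + r) := by
    rw [hWd]
    have : (d : ℝ) ^ 2 * y * (A + r) = (d : ℝ) ^ 2 * ((A + r) * y) := by ring
    rw [this, r2, mul_one]
  have e : (d : ℝ) ^ 2 - Real.sinh s / 6 * (A + 2 / A) =
      (W - Real.sinh s / 6) * (A + r) + Real.sinh s / 6 * (r - 2 / A) := by
    rw [hd]; ring
  rw [e]
  refine le_trans (abs_add_le _ _) ?_
  rw [abs_mul, abs_mul, abs_of_nonneg (by linarith : 0 ≤ Real.sinh s / 6)]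
  have t1 : |W - Real.sinh s / 6| * |A + r| ≤ 2000 * M0 / A ^ 3 := by
    rw [le_div_iff₀ (by positivity)]
    have h1 : |A + r| ≤ 2 * A := by
      refine le_trans (abs_add_le _ _) ?_
      rw [abs_of_pos hA0]
      linarith
    have h3 := abs_nonneg (W - Real.sinh s / 6)
    have h2 : |W - Real.sinh s / 6| * |A + r| * A ^ 3 ≤ |W - Real.sinh s / 6| * (2 * A) * A ^ 3 :=
      mul_le_mul_of_nonneg_right (mul_le_mul_of_nonneg_left h1 h3) (by positivity)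
    have h4 : |W - Real.sinh s / 6| * (2 * A) * A ^ 3 = 2 * (|W - Real.sinh s / 6| * A ^ 4) := by ring
    have h5 : |W - Real.sinh s / 6| * A ^ 4 ≤ |W - Real.sinh s / 6| * (625 * V ^ 2) :=
      mul_le_mul_of_nonneg_left hVA4 h3
    linarith
  have t2 : Real.sinh s / 6 * |r - 2 / A| ≤ 88 / A ^ 3 := by
    have h1 : Real.sinh s / 6 * |r - 2 / A| ≤ 1 * |r - 2 / A| :=
      mul_le_mul_of_nonneg_right (by linarith) (abs_nonneg _)
    linarith
  have e3 : (2000 * M0 + 88) / A ^ 3 = 2000 * M0 / A ^ 3 + 88 / A ^ 3 := by ring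
  rw [e3]
  linarith

/-- gap principle for three indices -/
theorem triple3 {t k : ℕ} (ht : 2 ≤ t) {σ E C : ℝ} (hσ0 : 0 < σ) (hC : 0 < C) (hk : (0 : ℝ) < k)
    (hcosh : 2 * Real.cosh (t : ℝ) = 2 + k * σ ^ 2) :
    ∃ N0 : ℕ, ∀ (a1 a2 a3 : ℕ) (g1 g2 g3 : ℕ), N0 ≤ a1 → a1 < a2 → a2 < a3 →
    |(g1 : ℝ) ^ 2 - E * (2 * a1 + 1) - σ / (2 * a1 + 1)| ≤ C / (2 * (a1 : ℝ) + 1) ^ 3 →
    |(g2 : ℝ) ^ 2 - E * (2 * a2 + 1) - σ / (2 * a2 + 1)| ≤ C / (2 * (a2 : ℝ) + 1) ^ 3 →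
    |(g3 : ℝ) ^ 2 - E * (2 * a3 + 1) - σ / (2 * a3 + 1)| ≤ C / (2 * (a3 : ℝ) + 1) ^ 3 →
    (2 * a1 + 1) ^ 39 ≤ (2 * a3 + 1) ^ 38 := by
  obtain ⟨c, hc, hmeas⟩ := UIL.measure t ht
  obtain ⟨K1, hK1⟩ : ∃ K1 : ℝ, K1 = 4 * C * (18 * σ ^ 2 + 3) * (σ + 1) ^ 5 := ⟨_, rfl⟩
  have hK1pos : 0 < K1 := by rw [hK1]; positivity
  obtain ⟨K2, hK2⟩ : ∃ K2 : ℝ, K2 = k * K1 * (9 * (σ + 1) ^ 4) ^ 8 := ⟨_, rfl⟩
  have hK2pos : 0 < K2 := by rw [hK2]; positivity
  obtain ⟨Q0, hQ0⟩ := exists_nat_gt (4 * C / σ + 2 * C + K1 + K2 / c)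
  refine ⟨Q0, ?_⟩
  intro a1 a2 a3 g1 g2 g3 h1 h12 h23 e1 e2 e3
  have hQa : (Q0 : ℝ) ≤ a1 := by exact_mod_cast h1
  have hCσ : 0 < 4 * C / σ := by positivity
  have hK2c : 0 < K2 / c := by positivity
  have h12r : (a1 : ℝ) + 1 ≤ a2 := by exact_mod_cast h12
  have h23r : (a2 : ℝ) + 1 ≤ a3 := by exact_mod_cast h23
  obtain ⟨q1, hq1⟩ : ∃ q : ℝ, q = 2 * (a1 : ℝ) + 1 := ⟨_, rfl⟩
  obtain ⟨q2, hq2⟩ : ∃ q : ℝ, q = 2 * (a2 : ℝ) + 1 := ⟨_, rfl⟩
  obtain ⟨q3, hq3⟩ : ∃ q : ℝ, q = 2 * (a3 : ℝ) + 1 := ⟨_, rfl⟩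
  obtain ⟨p1, hp1⟩ : ∃ q : ℝ, q = (g1 : ℝ) ^ 2 := ⟨_, rfl⟩
  obtain ⟨p2, hp2⟩ : ∃ q : ℝ, q = (g2 : ℝ) ^ 2 := ⟨_, rfl⟩
  obtain ⟨p3, hp3⟩ : ∃ q : ℝ, q = (g3 : ℝ) ^ 2 := ⟨_, rfl⟩
  rw [← hq1, ← hp1] at e1
  rw [← hq2, ← hp2] at e2
  rw [← hq3, ← hp3] at e3
  have ha10 : (0 : ℝ) ≤ a1 := Nat.cast_nonneg _
  have hq1_1 : 1 ≤ q1 := by rw [hq1]; linarith
  have hq12 : q1 + 1 ≤ q2 := by rw [hq1, hq2]; linarith
  have hq23 : q2 + 1 ≤ q3 := by rw [hq2, hq3]; linarith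
  have hbig : 4 * C / σ < q1 := by rw [hq1]; linarith
  have hbig2 : 2 * C ≤ q1 := by rw [hq1]; linarith
  obtain ⟨R, hR⟩ : ∃ R : ℝ, R = q3 / q1 := ⟨_, rfl⟩
  have hR13 : q3 / q1 ≤ R := hR.ge
  have hR12 : q2 / q1 ≤ R := by
    rw [hR]
    exact div_le_div_of_nonneg_right (by linarith) (by linarith)
  have hR23 : q3 / q2 ≤ R := by
    rw [hR]
    exact div_le_div_of_nonneg_left (by linarith) (by linarith) (by linarith)
  have hR1 : 1 ≤ R := by
    rw [hR, one_le_div (by linarith)]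
    linarith
  obtain ⟨x1, x2, x3, x4⟩ := UIL.pair_all hσ0 hC hq1_1 hq12 le_rfl hq1_1 hR12 hbig hbig2 e1 e2
  obtain ⟨y1, y2, y3, y4⟩ := UIL.pair_all hσ0 hC hq1_1 (by linarith : q1 + 1 ≤ q3) le_rfl hq1_1 hR13 hbig hbig2 e1 e3
  obtain ⟨z1, z2, z3, z4⟩ := UIL.pair_all hσ0 hC (by linarith : 1 ≤ q2) hq23 (by linarith : q1 ≤ q2) hq1_1 hR23
    hbig hbig2 e2 e3
  -- the integers
  obtain ⟨H12, hH12⟩ : ∃ H : ℤ, (H : ℝ) = q2 * p1 - q1 * p2 :=
    ⟨(2 * a2 + 1) * g1 ^ 2 - (2 * a1 + 1) * g2 ^ 2, by rw [hq1, hq2, hp1, hp2]; push_cast; ring⟩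
  obtain ⟨H13, hH13⟩ : ∃ H : ℤ, (H : ℝ) = q3 * p1 - q1 * p3 :=
    ⟨(2 * a3 + 1) * g1 ^ 2 - (2 * a1 + 1) * g3 ^ 2, by rw [hq1, hq3, hp1, hp3]; push_cast; ring⟩
  obtain ⟨H23, hH23⟩ : ∃ H : ℤ, (H : ℝ) = q3 * p2 - q2 * p3 :=
    ⟨(2 * a3 + 1) * g2 ^ 2 - (2 * a2 + 1) * g3 ^ 2, by rw [hq2, hq3, hp2, hp3]; push_cast; ring⟩
  rw [← hH12] at x1 x2 x4
  rw [← hH13] at y1 y2 y4
  rw [← hH23] at z1 z2 z4
  obtain ⟨M, hM⟩ : ∃ M : ℝ, M = (σ + 1) * R := ⟨_, rfl⟩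
  rw [← hM] at x2 x3 y2 y3 z2 z3
  have hM1 : 1 ≤ M := by
    rw [hM]
    exact one_le_mul_of_one_le_of_one_le (by linarith) hR1
  obtain ⟨δ, hδ⟩ : ∃ δ : ℝ, δ = 2 * C * R / q1 ^ 2 := ⟨_, rfl⟩
  rw [← hδ] at x1 y1 z1
  have hδ0 : 0 ≤ δ := (abs_nonneg _).trans x1
  obtain ⟨A, hA⟩ : ∃ A : ℤ, A = UIL.Af (H12 ^ 2) (H13 ^ 2) (H23 ^ 2) := ⟨_, rfl⟩
  obtain ⟨B, hB⟩ : ∃ B : ℤ, B = H12 ^ 2 * H13 ^ 2 * H23 ^ 2 := ⟨_, rfl⟩
  have hAr : (A : ℝ) = UIL.Af ((H12 : ℝ) ^ 2) ((H13 : ℝ) ^ 2) ((H23 : ℝ) ^ 2) := by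
    rw [hA]
    unfold UIL.Af
    push_cast
    ring
  have hBr : (B : ℝ) = (H12 : ℝ) ^ 2 * (H13 : ℝ) ^ 2 * (H23 : ℝ) ^ 2 := by
    rw [hB]
    push_cast
    ring
  have hid := UIL.ident (σ := σ) (x := q1) (y := q2) (z := q3) (by linarith) (by linarith) (by linarith)
  have hAc := UIL.Af_close (UIL.sq_abs_le x2) (UIL.sq_abs_le y2) (UIL.sq_abs_le z2) (UIL.sq_abs_le x3) (UIL.sq_abs_le y3) (UIL.sq_abs_le z3)
    (UIL.sq_close x1 x2 x3) (UIL.sq_close y1 y2 y3) (UIL.sq_close z1 z2 z3)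
  have hBc := UIL.Bf_close (UIL.sq_abs_le x2) (UIL.sq_abs_le y2) (UIL.sq_abs_le y3) (UIL.sq_abs_le z3)
    (UIL.sq_close x1 x2 x3) (UIL.sq_close y1 y2 y3) (UIL.sq_close z1 z2 z3)
  have hAle := UIL.Af_le (UIL.sq_abs_le x2) (UIL.sq_abs_le y2) (UIL.sq_abs_le z2)
  rw [← hAr] at hAc hAle
  rw [← hBr] at hBc
  rw [← hid] at hBc
  obtain ⟨As, hAs⟩ : ∃ As : ℝ, As = UIL.Af ((σ * (q2 / q1 - q1 / q2)) ^ 2) ((σ * (q3 / q1 - q1 / q3)) ^ 2)
    ((σ * (q3 / q2 - q2 / q3)) ^ 2) := ⟨_, rfl⟩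
  rw [← hAs] at hAc hBc
  have hM2 : (M ^ 2) ≤ (M ^ 2) ^ 2 := le_self_pow₀ (one_le_pow₀ hM1) (by norm_num)
  have hX : |σ ^ 2 * A - B| ≤ K1 * R ^ 6 / q1 ^ 2 := by
    have t1 : σ ^ 2 * A - B = σ ^ 2 * (A - As) - (B - σ ^ 2 * As) := by ring
    rw [t1]
    refine (abs_sub _ _).trans ?_
    rw [abs_mul, abs_of_nonneg (sq_nonneg σ)]
    have t2 : σ ^ 2 * |(A : ℝ) - As| ≤ σ ^ 2 * (18 * (M ^ 2) ^ 2 * (2 * M * δ)) := by
      apply mul_le_mul_of_nonneg_left _ (sq_nonneg σ)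
      refine hAc.trans ?_
      apply mul_le_mul_of_nonneg_right _ (by positivity)
      linarith
    have t3 : K1 * R ^ 6 / q1 ^ 2 = (18 * σ ^ 2 + 3) * (M ^ 2) ^ 2 * (2 * M * δ) := by
      rw [hK1, hM, hδ]
      ring
    rw [t3]
    linarith
  have hq1sq : 0 < q1 ^ 2 := by positivity
  have hR38 : R ^ 6 ≤ R ^ 38 := pow_le_pow_right₀ hR1 (by norm_num)
  have key : q1 ^ 2 ≤ (K1 + K2 / c) * R ^ 38 := by
    by_cases hA0 : A = 0
    · rw [hA0, Int.cast_zero, mul_zero, zero_sub, abs_neg] at hX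
      have hB1 : (1 : ℝ) ≤ |(B : ℝ)| := by
        have h5 : 0 < H12 := by exact_mod_cast x4
        have h6 : 0 < H13 := by exact_mod_cast y4
        have h7 : 0 < H23 := by exact_mod_cast z4
        have h8 : 0 < B := by rw [hB]; positivity
        have h9 : (1 : ℤ) ≤ |B| := Int.one_le_abs h8.ne'
        exact_mod_cast h9
      have h10 := hB1.trans hX
      rw [le_div_iff₀ hq1sq, one_mul] at h10
      have h11 : K1 * R ^ 6 ≤ K1 * R ^ 38 := mul_le_mul_of_nonneg_left hR38 hK1pos.le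
      have h12 : 0 ≤ K2 / c * R ^ 38 := by positivity
      linarith
    · have h5 := hmeas A (2 * A + k * B) hA0
      rw [hcosh] at h5
      have h6 : (A : ℝ) * (2 + k * σ ^ 2) - ((2 * A + k * B : ℤ) : ℝ) = k * (σ ^ 2 * A - B) := by
        push_cast
        ring
      rw [h6, abs_mul, abs_of_pos hk] at h5
      have h7 : |(A : ℝ)| ^ 8 ≤ (9 * (σ + 1) ^ 4 * R ^ 4) ^ 8 := by
        apply pow_le_pow_left₀ (abs_nonneg _)
        refine hAle.trans (le_of_eq ?_)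
        rw [hM]
        ring
      have h8 : c ≤ k * (K1 * R ^ 6 / q1 ^ 2) * (9 * (σ + 1) ^ 4 * R ^ 4) ^ 8 :=
        h5.trans (mul_le_mul (mul_le_mul_of_nonneg_left hX hk.le) h7 (by positivity) (by positivity))
      have h9 : k * (K1 * R ^ 6 / q1 ^ 2) * (9 * (σ + 1) ^ 4 * R ^ 4) ^ 8 = K2 * R ^ 38 / q1 ^ 2 := by
        rw [hK2]
        ring
      rw [h9, le_div_iff₀ hq1sq] at h8
      have h10 : q1 ^ 2 ≤ K2 / c * R ^ 38 := by
        have : K2 / c * R ^ 38 = (K2 * R ^ 38) / c := by ring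
        rw [this, le_div_iff₀ hc]
        linarith
      have h11 : 0 ≤ K1 * R ^ 38 := by positivity
      linarith
  have hKq : K1 + K2 / c ≤ q1 := by rw [hq1]; linarith
  have key2 : q1 ^ 2 ≤ q1 * R ^ 38 := key.trans (mul_le_mul_of_nonneg_right hKq (by positivity))
  have key3 : q1 ≤ R ^ 38 := by
    have : q1 * q1 ≤ q1 * R ^ 38 := by rw [← sq]; exact key2
    exact le_of_mul_le_mul_left this (by linarith)
  have key4 : q1 ^ 39 ≤ q3 ^ 38 := by
    rw [hR, div_pow, le_div_iff₀ (by positivity)] at key3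
    calc q1 ^ 39 = q1 * q1 ^ 38 := by ring
      _ ≤ q3 ^ 38 := key3
  rw [hq1, hq3] at key4
  exact_mod_cast key4


theorem lll_facts : (1 : ℝ) < Real.log (Real.log 16) ∧ (2.7 : ℝ) < Real.log 16 := by
  have h1 : Real.log 16 = 4 * Real.log 2 := by
    rw [show (16 : ℝ) = 2 ^ 4 by norm_num, Real.log_pow]
    norm_num
  have h2 := Real.log_two_gt_d9
  have h3 : Real.exp 1 < Real.log 16 := by
    rw [h1]
    have := Real.exp_one_lt_d9
    linarith
  refine ⟨?_, by rw [h1]; linarith⟩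
  rw [Real.lt_log_iff_exp_lt (by rw [h1]; linarith)]
  exact h3

theorem q_exp {s : ℕ} (hs : s = 1 ∨ s = 2) (k : ℕ) : 3 ^ k ≤ (conv s (k + 1)).2 := by
  induction k with
  | zero => simpa using q_pos hs 0
  | succ k ih =>
    have h := q_grow hs (k + 1)
    have h1 : 3 * (conv s (k + 1)).2 ≤ (2 * (k + 1) + 1) * (conv s (k + 1)).2 := Nat.mul_le_mul_right _ (by omega)
    rw [pow_succ]
    have h2 : 3 ^ k * 3 ≤ 3 * (conv s (k + 1)).2 := by omega
    exact le_trans h2 (le_trans h1 h)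

theorem log_bound {s : ℕ} (hs : s = 1 ∨ s = 2) {X x : ℕ} (hX : 16 ≤ X) (hx : 1 ≤ x) (h : (conv s x).2 ≤ X) :
    Real.log (2 * (x : ℝ) + 1) ≤ 4 * Real.log (Real.log X) := by
  obtain ⟨k, rfl⟩ : ∃ k, x = k + 1 := ⟨x - 1, by omega⟩
  have hXr : (16 : ℝ) ≤ X := by exact_mod_cast hX
  obtain ⟨-, hl⟩ := lll_facts
  have hlX : Real.log 16 ≤ Real.log X := Real.log_le_log (by norm_num) hXr
  have h2 : 3 ^ k ≤ X := le_trans (q_exp hs k) h
  have h4 : (3 : ℝ) ^ k ≤ (X : ℝ) := by exact_mod_cast h2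
  have h5 := Real.log_le_log (by positivity) h4
  rw [Real.log_pow] at h5
  have h6 := UIL.one_lt_log_three
  have hk : (0 : ℝ) ≤ k := Nat.cast_nonneg k
  have h7 : (k : ℝ) ≤ Real.log X := by nlinarith
  have h8 : 2 * (((k + 1 : ℕ) : ℝ)) + 1 ≤ Real.log X ^ 4 := by
    push_cast
    have h9 : (2.7 : ℝ) ^ 3 ≤ Real.log X ^ 3 := pow_le_pow_left₀ (by norm_num) (by linarith) 3
    have h10 : (2.7 : ℝ) ^ 3 * Real.log X ≤ Real.log X ^ 3 * Real.log X :=
      mul_le_mul_of_nonneg_right h9 (by linarith)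
    have h11 : Real.log X ^ 3 * Real.log X = Real.log X ^ 4 := by ring
    norm_num at h10
    linarith
  have h9 := Real.log_le_log (by positivity) h8
  rw [Real.log_pow] at h9
  exact_mod_cast h9

/-- the constants of `core2` in terms of `2 n + 1` -/
theorem params {s : ℕ} (hs : s = 1 ∨ s = 2) : ∃ (t k : ℕ) (σ E : ℝ), 2 ≤ t ∧ (0 : ℝ) < k ∧ 0 < σ ∧
    2 * Real.cosh (t : ℝ) = 2 + k * σ ^ 2 ∧
    ∀ n : ℕ, Real.sinh s / 6 * (quot s n + 2 / quot s n) = E * (2 * n + 1) + σ / (2 * n + 1) := by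
  rcases hs with rfl | rfl
  · refine ⟨2, 144, Real.sinh 1 / 6, Real.sinh 1 / 3, le_rfl, by norm_num, ?_, ?_, ?_⟩
    · have : 0 < Real.sinh 1 := Real.sinh_pos_iff.2 one_pos
      positivity
    · push_cast
      rw [show (2 : ℝ) = 2 * 1 by norm_num, Real.cosh_two_mul, Real.cosh_sq]
      ring
    · intro n
      have e : (quot 1 n : ℝ) = 2 * (2 * n + 1) := by
        have := quot_real (Or.inl rfl : (1 : ℕ) = 1 ∨ (1 : ℕ) = 2) n
        push_cast at this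
        linarith
      rw [e]
      have : (2 * (n : ℝ) + 1) ≠ 0 := by positivity
      push_cast
      field_simp
      ring
  · refine ⟨4, 36, Real.sinh 2 / 3, Real.sinh 2 / 6, by norm_num, by norm_num, ?_, ?_, ?_⟩
    · have : 0 < Real.sinh 2 := Real.sinh_pos_iff.2 two_pos
      positivity
    · push_cast
      rw [show (4 : ℝ) = 2 * 2 by norm_num, Real.cosh_two_mul, Real.cosh_sq]
      ring
    · intro n
      have e : (quot 2 n : ℝ) = 2 * n + 1 := by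
        have := quot_real (Or.inr rfl : (2 : ℕ) = 1 ∨ (2 : ℕ) = 2) n
        push_cast at this
        linarith
      rw [e]
      have : (2 * (n : ℝ) + 1) ≠ 0 := by positivity
      push_cast
      field_simp
      ring

theorem near_unique {d d' : ℕ} {X δ : ℝ} (hδ : δ < 1 / 2) (h : |(d : ℝ) ^ 2 - X| ≤ δ)
    (h' : |(d' : ℝ) ^ 2 - X| ≤ δ) : d = d' := by
  rw [abs_le] at h h'
  have h5 : (d : ℝ) ^ 2 < (d' : ℝ) ^ 2 + 1 := by linarith [h.2, h'.1]
  have h6 : (d' : ℝ) ^ 2 < (d : ℝ) ^ 2 + 1 := by linarith [h'.2, h.1]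
  have h7 : d ^ 2 < d' ^ 2 + 1 := by exact_mod_cast h5
  have h8 : d' ^ 2 < d ^ 2 + 1 := by exact_mod_cast h6
  have h9 : d ^ 2 = d' ^ 2 := by omega
  exact (pow_left_inj₀ (Nat.zero_le _) (Nat.zero_le _) two_ne_zero).1 h9

theorem count {s : ℕ} (hs : s = 1 ∨ s = 2) : ∃ C : ℝ, ∀ X : ℕ, 16 ≤ X → ∀ P : Finset (ℕ × ℕ),
    (∀ p ∈ P, p.2 ≤ X ∧ ∃ m, Sol p.1 p.2 m s) →
    (P.card : ℝ) ≤ C * Real.log (Real.log (Real.log X)) := by
  classical
  obtain ⟨t, k, σ, E, ht, hk, hσ0, hcosh, hpar⟩ := params hs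
  obtain ⟨C0, hC0, hcore⟩ := core2 hs
  obtain ⟨N0, hN0⟩ := triple3 (E := E) ht hσ0 hC0 hk hcosh
  obtain ⟨N1, hN1⟩ := exists_nat_gt (2 * C0)
  obtain ⟨B1, hB1⟩ := hcore (max N0 N1)
  have hL : 0 < Real.log ((39 : ℝ) / 38) := Real.log_pos (by norm_num)
  obtain ⟨hll, hl⟩ := lll_facts
  have hl3 : 0 < Real.log (Real.log (Real.log 16)) := Real.log_pos hll
  refine ⟨((B1 : ℝ) ^ 2 + 2 + 2 * Real.log 4 / Real.log ((39 : ℝ) / 38)) /
    Real.log (Real.log (Real.log 16)) + 2 / Real.log ((39 : ℝ) / 38), ?_⟩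
  intro X hX P hP
  have hXr : (16 : ℝ) ≤ X := by exact_mod_cast hX
  have hlogX : Real.log 16 ≤ Real.log X := Real.log_le_log (by norm_num) hXr
  have hllX : Real.log (Real.log 16) ≤ Real.log (Real.log X) :=
    Real.log_le_log (by linarith) hlogX
  have hlllX : Real.log (Real.log (Real.log 16)) ≤ Real.log (Real.log (Real.log X)) :=
    Real.log_le_log (by linarith) hllX
  have hsplit : P.card = (P.filter fun p => p.2 < B1).card + (P.filter fun p => ¬ p.2 < B1).card :=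
    (Finset.card_filter_add_card_filter_not _).symm
  have hP1 : (P.filter fun p => p.2 < B1).card ≤ B1 ^ 2 := by
    have h1 : (P.filter fun p => p.2 < B1) ⊆ (Finset.range B1) ×ˢ (Finset.range B1) := by
      intro p hp
      rw [Finset.mem_filter] at hp
      obtain ⟨_, m, hm⟩ := hP p hp.1
      have h2 := hm.hab
      rw [Finset.mem_product, Finset.mem_range, Finset.mem_range]
      omega
    have h2 := Finset.card_le_card h1
    rw [Finset.card_product, Finset.card_range] at h2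
    rw [sq]
    exact h2
  set P2 := P.filter fun p => ¬ p.2 < B1 with hP2
  have hmem : ∀ p : {p // p ∈ P2}, p.1.2 ≤ X ∧ p.1.1 < p.1.2 ∧ ∃ n d : ℕ, max N0 N1 ≤ n ∧ 1 ≤ n ∧
      p.1.1 + p.1.2 + 1 = d * (conv s n).1 ∧ p.1.2 - p.1.1 = d * (conv s n).2 ∧
      |(d : ℝ) ^ 2 - Real.sinh s / 6 * (quot s n + 2 / quot s n)| ≤ C0 / (2 * (n : ℝ) + 1) ^ 3 := by
    rintro ⟨p, hp⟩
    rw [hP2, Finset.mem_filter] at hp
    obtain ⟨h1, m, hm⟩ := hP p hp.1
    obtain ⟨n, d, k1, k2, -, k3, k4, -, k5⟩ := hB1 p.1 p.2 m (not_lt.1 hp.2) hm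
    refine ⟨h1, hm.hab, n, d, k1, k2, k3, k4, le_trans k5 ?_⟩
    have hq : (2 * n + 1 : ℝ) ≤ quot s n := by exact_mod_cast quot_ge hs n
    exact div_le_div_of_nonneg_left hC0.le (by positivity) (pow_le_pow_left₀ (by positivity) hq 3)
  choose hpX hpab nn dd hnn hn1 ha hb hnear using hmem
  have hsmall : ∀ p, C0 / (2 * (nn p : ℝ) + 1) ^ 3 < 1 / 2 := by
    intro p
    have h1 : N1 ≤ nn p := le_trans (le_max_right _ _) (hnn p)
    have h2 : (N1 : ℝ) ≤ nn p := by exact_mod_cast h1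
    have h4 : (1 : ℝ) ≤ nn p := by exact_mod_cast hn1 p
    have h3 : (2 * (nn p : ℝ) + 1) ≤ (2 * (nn p : ℝ) + 1) ^ 3 := le_self_pow₀ (by linarith) (by norm_num)
    rw [div_lt_div_iff₀ (by positivity) (by norm_num)]
    linarith
  have hinj : Function.Injective nn := by
    intro p p' h
    have h2 := hnear p'
    rw [← h] at h2
    have h3 := near_unique (hsmall p) (hnear p) h2
    have h4 := ha p
    have h5 := ha p'
    have h6 := hb p
    have h7 := hb p'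
    rw [← h, ← h3] at h5 h7
    have h10 := hpab p
    have h11 := hpab p'
    have h8 : p.1.1 = p'.1.1 := by omega
    have h9 : p.1.2 = p'.1.2 := by omega
    exact Subtype.ext (Prod.ext h8 h9)
  set S := P2.attach.image nn with hS
  have hcard : S.card = P2.card := by
    rw [hS, Finset.card_image_of_injective _ hinj, Finset.card_attach]
  have hSmem : ∀ x ∈ S, ∃ p, nn p = x := by
    intro x hx
    rw [hS, Finset.mem_image] at hx
    obtain ⟨p, -, hp⟩ := hx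
    exact ⟨p, hp⟩
  have hS1 : ∀ x ∈ S, 1 ≤ x := by
    intro x hx
    obtain ⟨p, rfl⟩ := hSmem x hx
    exact hn1 p
  have hS3 : ∀ x ∈ S, ∀ y ∈ S, ∀ z ∈ S, x < y → y < z → (2 * x + 1) ^ 39 ≤ (2 * z + 1) ^ 38 := by
    intro x hx y hy z hz hxy hyz
    obtain ⟨p, rfl⟩ := hSmem x hx
    obtain ⟨p', rfl⟩ := hSmem y hy
    obtain ⟨p'', rfl⟩ := hSmem z hz
    have f1 := hnear p
    have f2 := hnear p'
    have f3 := hnear p''
    rw [hpar, ← sub_sub] at f1 f2 f3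
    exact hN0 _ _ _ _ _ _ (le_trans (le_max_left _ _) (hnn p)) hxy hyz f1 f2 f3
  have hScard : (S.card : ℝ) ≤
      2 + 2 * (Real.log 4 + Real.log (Real.log (Real.log X))) / Real.log ((39 : ℝ) / 38) := by
    rcases Nat.eq_zero_or_pos S.card with h0 | h0
    · rw [h0]
      have : 0 ≤ 2 * (Real.log 4 + Real.log (Real.log (Real.log X))) / Real.log ((39 : ℝ) / 38) := by
        have : 0 < Real.log 4 := Real.log_pos (by norm_num)
        apply div_nonneg _ hL.le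
        linarith
      push_cast
      linarith
    · obtain ⟨n, hn⟩ : ∃ n : ℕ, n = (S.card - 1) / 2 := ⟨_, rfl⟩
      obtain ⟨x, hx, hx2⟩ := UIL.card_growth n S hS1 hS3 (by omega)
      have hx1 := hS1 x hx
      obtain ⟨p, rfl⟩ := hSmem x hx
      have hdpos : 1 ≤ dd p := by
        rcases Nat.eq_zero_or_pos (dd p) with h0 | h0
        · have h1 := hb p
          have h2 := hpab p
          rw [h0, zero_mul] at h1
          omega
        · exact h0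
      have hQX : (conv s (nn p)).2 ≤ X := by
        have h1 := hb p
        have h2 := hpX p
        have h3 : (conv s (nn p)).2 ≤ dd p * (conv s (nn p)).2 := Nat.le_mul_of_pos_left _ hdpos
        omega
      have h1 := log_bound hs hX hx1 hQX
      have h2 := hx2.trans h1
      have h3 := Real.log_le_log (by positivity) h2
      rw [Real.log_pow, Real.log_mul (by norm_num) (by linarith)] at h3
      have h4 : (n : ℝ) ≤ (Real.log 4 + Real.log (Real.log (Real.log X))) / Real.log ((39 : ℝ) / 38) := by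
        rw [le_div_iff₀ hL]
        exact h3
      have h5 : (S.card : ℝ) ≤ 2 * n + 2 := by
        have : S.card ≤ 2 * n + 2 := by omega
        exact_mod_cast this
      have h6 : 2 * (Real.log 4 + Real.log (Real.log (Real.log X))) / Real.log ((39 : ℝ) / 38) =
          2 * ((Real.log 4 + Real.log (Real.log (Real.log X))) / Real.log ((39 : ℝ) / 38)) := by ring
      rw [h6]
      linarith
  have hfin : (P.card : ℝ) ≤ (B1 : ℝ) ^ 2 +
      (2 + 2 * (Real.log 4 + Real.log (Real.log (Real.log X))) / Real.log ((39 : ℝ) / 38)) := by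
    rw [hcard] at hScard
    have h1 : (P.card : ℝ) = ((P.filter fun p => p.2 < B1).card : ℝ) + (P2.card : ℝ) := by
      exact_mod_cast hsplit
    have h2 : (((P.filter fun p => p.2 < B1).card : ℕ) : ℝ) ≤ (B1 : ℝ) ^ 2 := by exact_mod_cast hP1
    linarith
  refine hfin.trans ?_
  have h7 : 0 < Real.log 4 := Real.log_pos (by norm_num)
  set K : ℝ := (B1 : ℝ) ^ 2 + 2 + 2 * Real.log 4 / Real.log ((39 : ℝ) / 38) with hK
  have hK0 : 0 ≤ K := by positivity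
  have h8 : K ≤ K / Real.log (Real.log (Real.log 16)) * Real.log (Real.log (Real.log X)) := by
    have : K / Real.log (Real.log (Real.log 16)) * Real.log (Real.log (Real.log 16)) ≤
        K / Real.log (Real.log (Real.log 16)) * Real.log (Real.log (Real.log X)) :=
      mul_le_mul_of_nonneg_left hlllX (by positivity)
    rw [div_mul_cancel₀ _ hl3.ne'] at this
    exact this
  have h9 : (B1 : ℝ) ^ 2 + (2 + 2 * (Real.log 4 + Real.log (Real.log (Real.log X))) /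
      Real.log ((39 : ℝ) / 38)) =
      K + 2 / Real.log ((39 : ℝ) / 38) * Real.log (Real.log (Real.log X)) := by
    rw [hK]
    ring
  rw [h9, add_mul]
  linarith

end Pool.Agent.UCF
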