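import Pool.Agent.UCF.Fine

/-!
The size of `gcd (a + b, b - a + 1)` for the members of value 1 and 2.
-/

namespace Pool.Agent.UCF

open Pool.Agent.P30.UnitInterval Filter

theorem Q_lower {s : ℕ} (hs : s = 1 ∨ s = 2) (n : ℕ) : n.factorial ≤ (conv s (n + 1)).2 := by
  induction n with
  | zero => simpa using q_pos hs 0
  | succ n ih =>
    have h := q_grow hs (n + 1)
    rw [Nat.factorial_succ]
    exact le_trans (Nat.mul_le_mul (by omega) ih) h

theorem Q_upper {s : ℕ} (hs : s = 1 ∨ s = 2) (n : ℕ) : (conv s (n + 1)).2 ≤ 7 ^ n * n.factorial := by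
  induction n with
  | zero => simp [conv]
  | succ n ih =>
    have e : (conv s (n + 1 + 1)).2 = quot s (n + 1) * (conv s (n + 1)).2 + (conv s n).2 := rfl
    have h1 : (conv s n).2 ≤ (conv s (n + 1)).2 := q_mono hs (Nat.le_succ n)
    have h2 : quot s (n + 1) ≤ 4 * (n + 1) + 2 := by unfold quot; exact Nat.div_le_self _ _
    rw [e, pow_succ, Nat.factorial_succ]
    calc quot s (n + 1) * (conv s (n + 1)).2 + (conv s n).2
        ≤ (4 * (n + 1) + 2) * (conv s (n + 1)).2 + (conv s (n + 1)).2 :=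
          Nat.add_le_add (Nat.mul_le_mul_right _ h2) h1
      _ = (4 * n + 7) * (conv s (n + 1)).2 := by ring
      _ ≤ (7 * (n + 1)) * (7 ^ n * n.factorial) := Nat.mul_le_mul (by omega) ih
      _ = 7 ^ n * 7 * ((n + 1) * n.factorial) := by ring

/-- the analytic lemma -/
theorem ratio_close (K ε : ℝ) (hK : 0 ≤ K) (hε : 0 < ε) : ∃ N : ℕ, ∀ n : ℕ, N ≤ n → ∀ x : ℝ,
    |x - n * Real.log n| ≤ K * n → |n * Real.log x / x - 1| ≤ ε := by
  have h1 : Tendsto (fun L : ℝ => Real.log L / L) atTop (nhds 0) :=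
    Real.isLittleO_log_id_atTop.tendsto_div_nhds_zero
  have h2 : Tendsto (fun L : ℝ => (1 + K) / L) atTop (nhds 0) := tendsto_const_nhds.div_atTop tendsto_id
  have h3 : Tendsto (fun L : ℝ => 2 * (Real.log L / L + (1 + K) / L)) atTop (nhds 0) := by
    have := (h1.add h2).const_mul 2
    simpa using this
  have h4 : Tendsto (fun n : ℕ => Real.log (n : ℝ)) atTop atTop :=
    Real.tendsto_log_atTop.comp tendsto_natCast_atTop_atTop
  have h5 := (h3.comp h4).eventually (gt_mem_nhds hε)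
  have h6 := h4.eventually (eventually_ge_atTop (2 * K + 2))
  obtain ⟨N, hN⟩ := eventually_atTop.1 (h5.and h6)
  refine ⟨max N 2, ?_⟩
  intro n hn x hx
  obtain ⟨h7, h8⟩ := hN n (le_trans (le_max_left _ _) hn)
  have hn2 : (2 : ℝ) ≤ n := by exact_mod_cast le_trans (le_max_right _ _) hn
  simp only [Function.comp] at h7
  obtain ⟨L, hL⟩ : ∃ L : ℝ, L = Real.log n := ⟨_, rfl⟩
  rw [← hL] at h7 h8 hx
  have hL2 : 2 ≤ L := by linarith
  have hnL : 0 < (n : ℝ) * L := by positivity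
  obtain ⟨y, hy⟩ : ∃ y : ℝ, y = x / (n * L) := ⟨_, rfl⟩
  have hxy : x = n * L * y := by rw [hy]; field_simp
  have hyc : L * |y - 1| ≤ K := by
    have e : x - n * L = n * (L * (y - 1)) := by rw [hxy]; ring
    rw [e, abs_mul, abs_of_pos (by linarith : (0 : ℝ) < n), abs_mul, abs_of_pos (by linarith : 0 < L)] at hx
    have : (n : ℝ) * (L * |y - 1|) ≤ n * K := by linarith
    exact le_of_mul_le_mul_left this (by linarith)
  have hy1 : |y - 1| ≤ 1 / 2 := by
    by_contra hc
    push Not at hc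
    have : L * (1 / 2) < L * |y - 1| := mul_lt_mul_of_pos_left hc (by linarith)
    linarith
  obtain ⟨hy2, hy3⟩ := abs_le.1 hy1
  have hy0 : 0 < y := by linarith
  have hlogx : Real.log x = L + Real.log L + Real.log y := by
    rw [hxy, Real.log_mul hnL.ne' hy0.ne', Real.log_mul (by positivity) (by positivity), ← hL]
  have hlogy : |Real.log y| ≤ 1 := by
    rw [abs_le]
    constructor
    · have h := Real.one_sub_inv_le_log_of_pos hy0
      have : y⁻¹ ≤ 2 := by
        rw [inv_le_comm₀ hy0 (by norm_num)]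
        linarith
      linarith
    · have h := Real.log_le_sub_one_of_pos hy0
      linarith
  have e : n * Real.log x / x - 1 = (Real.log L + Real.log y - L * (y - 1)) / (L * y) := by
    rw [hlogx, hxy]
    field_simp
    ring
  rw [e, abs_div, abs_of_pos (by positivity : 0 < L * y), div_le_iff₀ (by positivity)]
  have hlogL : 0 ≤ Real.log L := Real.log_nonneg (by linarith)
  have n1 : |Real.log L + Real.log y - L * (y - 1)| ≤ Real.log L + 1 + K := by
    refine le_trans (abs_sub _ _) ?_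
    rw [abs_mul, abs_of_pos (by linarith : 0 < L)]
    have := abs_add_le (Real.log L) (Real.log y)
    rw [abs_of_nonneg hlogL] at this
    linarith
  refine le_trans n1 ?_
  have h9 : 2 * (Real.log L + 1 + K) ≤ ε * L := by
    have : 2 * (Real.log L / L + (1 + K) / L) = 2 * (Real.log L + 1 + K) / L := by
      field_simp
      ring
    rw [this, div_lt_iff₀ (by linarith)] at h7
    exact h7.le
  have h10 : ε * (L * y) ≥ ε * (L * (1 / 2)) := by
    apply mul_le_mul_of_nonneg_left _ hε.le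
    exact mul_le_mul_of_nonneg_left (by linarith) (by linarith)
  linarith

/-- `n ! ≥ (n / e) ^ n` -/
theorem log_fact_lower (k : ℕ) : k * Real.log k - k ≤ Real.log (k.factorial : ℝ) := by
  rcases Nat.eq_zero_or_pos k with h | h
  · subst h; simp
  · have hk : (0 : ℝ) < k := by exact_mod_cast h
    have h1 := Real.pow_div_factorial_le_exp (k : ℝ) hk.le k
    have hf : (0 : ℝ) < (k.factorial : ℝ) := by exact_mod_cast Nat.factorial_pos k
    have h2 := Real.log_le_log (by positivity) h1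
    rw [Real.log_exp, Real.log_div (by positivity) hf.ne', Real.log_pow] at h2
    linarith

theorem log_seven_le : Real.log 7 ≤ 2 := by
  rw [Real.log_le_iff_le_exp (by norm_num)]
  have h4 := Real.exp_one_gt_d9
  have h5 : Real.exp 2 = Real.exp 1 ^ 2 := by rw [← Real.exp_nat_mul]; norm_num
  rw [h5]
  nlinarith

theorem log_close {k : ℕ} (hk : 1 ≤ k) {c b : ℝ} (hc : 1 ≤ c) (hlow : (k.factorial : ℝ) ≤ b)
    (hup : b ≤ 2 * (c * ((k : ℝ) + 1)) * (7 ^ k * (k.factorial : ℝ))) :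
    |Real.log b - ((k : ℝ) + 1) * Real.log ((k : ℝ) + 1)| ≤ (2 * c + 3) * ((k : ℝ) + 1) := by
  have hk1 : (1 : ℝ) ≤ k := by exact_mod_cast hk
  have hkpos : (0 : ℝ) < k := by linarith
  have hn0 : (0 : ℝ) < (k : ℝ) + 1 := by linarith
  have hf0 : (0 : ℝ) < (k.factorial : ℝ) := by exact_mod_cast Nat.factorial_pos k
  have hlogk0 : 0 ≤ Real.log k := Real.log_nonneg hk1
  have hlogkn : Real.log k ≤ Real.log ((k : ℝ) + 1) := Real.log_le_log hkpos (by linarith)
  have hlogn : Real.log ((k : ℝ) + 1) ≤ (k : ℝ) := by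
    have := Real.log_le_sub_one_of_pos hn0
    linarith
  have h8 : ((k : ℝ) + 1) * Real.log ((k : ℝ) + 1) = k * Real.log ((k : ℝ) + 1) + Real.log ((k : ℝ) + 1) := by ring
  have hck : 0 < c * (k : ℝ) := by positivity
  rw [abs_le]
  constructor
  · have h1 := Real.log_le_log hf0 hlow
    have h2 := log_fact_lower k
    have h3 : Real.log ((k : ℝ) + 1) ≤ Real.log k + 1 / k := by
      have h4 : Real.log ((k : ℝ) + 1) = Real.log k + Real.log (((k : ℝ) + 1) / k) := by
        rw [Real.log_div hn0.ne' hkpos.ne']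
        ring
      have h5 := Real.log_le_sub_one_of_pos (by positivity : 0 < ((k : ℝ) + 1) / k)
      have h6 : ((k : ℝ) + 1) / k - 1 = 1 / k := by
        field_simp
        ring
      rw [h4]
      linarith
    have h7 : (k : ℝ) * Real.log ((k : ℝ) + 1) ≤ k * Real.log k + 1 := by
      have := mul_le_mul_of_nonneg_left h3 hkpos.le
      have e : (k : ℝ) * (Real.log k + 1 / k) = k * Real.log k + 1 := by field_simp
      linarith
    have h10 : (2 * c + 3) * ((k : ℝ) + 1) = 2 * (c * k) + 2 * c + 3 * k + 3 := by ring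
    rw [h10, h8]
    linarith
  · have hb0 : 0 < b := by linarith
    have h1 := Real.log_le_log hb0 hup
    rw [Real.log_mul (by positivity) (by positivity), Real.log_mul (by positivity) hf0.ne', Real.log_pow] at h1
    have h2 : Real.log (2 * (c * ((k : ℝ) + 1))) ≤ 2 * (c * ((k : ℝ) + 1)) - 1 :=
      Real.log_le_sub_one_of_pos (by positivity)
    have h6 : (k : ℝ) * Real.log 7 ≤ k * 2 := mul_le_mul_of_nonneg_left log_seven_le hkpos.le
    have h7 : Real.log (k.factorial : ℝ) ≤ k * Real.log k := by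
      have h8 : (k.factorial : ℝ) ≤ (k : ℝ) ^ k := by exact_mod_cast Nat.factorial_le_pow k
      have h9 := Real.log_le_log hf0 h8
      rw [Real.log_pow] at h9
      exact h9
    have h10 : (k : ℝ) * Real.log k ≤ ((k : ℝ) + 1) * Real.log ((k : ℝ) + 1) :=
      mul_le_mul (by linarith) hlogkn hlogk0 hn0.le
    have h11 : (2 * c + 3) * ((k : ℝ) + 1) = 2 * (c * ((k : ℝ) + 1)) + 3 * k + 3 := by ring
    rw [h11]
    linarith

/-- the law for `gcd (a + b, b - a + 1)` -/
theorem law {s : ℕ} (hs : s = 1 ∨ s = 2) {ε : ℝ} (hε : 0 < ε) : ∃ B : ℕ, ∀ a b m : ℕ, B ≤ b → Sol a b m s →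
    |(((a + b + 1).gcd (b - a) : ℕ) : ℝ) ^ 2 * Real.log (Real.log b) / Real.log b -
      2 * Real.sinh s / (3 * s)| ≤ ε := by
  obtain ⟨C, hC, hcore⟩ := core2 hs
  obtain ⟨hs1, hs2⟩ := sinh_bounds hs
  have hs0 : (1 : ℝ) ≤ s := by rcases hs with rfl | rfl <;> norm_num
  obtain ⟨T, hT⟩ : ∃ T : ℝ, T = 2 * Real.sinh s / (3 * s) := ⟨_, rfl⟩
  have hT0 : 0 < T := by rw [hT]; positivity
  have hT3 : T ≤ 3 := by
    rw [hT, div_le_iff₀ (by positivity)]
    linarith
  obtain ⟨C3, hC3⟩ : ∃ C3 : ℝ, C3 = C + 3 := ⟨_, rfl⟩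
  have hC30 : 0 < C3 := by linarith
  obtain ⟨ε', hε'⟩ : ∃ e : ℝ, e = min 1 (ε / 6) := ⟨_, rfl⟩
  have hε'0 : 0 < ε' := by rw [hε']; exact lt_min one_pos (by linarith)
  have hε'1 : ε' ≤ 1 := by rw [hε']; exact min_le_left _ _
  have hε'2 : ε' ≤ ε / 6 := by rw [hε']; exact min_le_right _ _
  obtain ⟨N1, hN1⟩ := ratio_close (2 * (3 + C3) + 3) ε' (by linarith) hε'0
  obtain ⟨N2, hN2⟩ := exists_nat_ge (4 * C3 / ε)
  obtain ⟨B, hB⟩ := hcore (max (max N1 N2) 15)
  refine ⟨max B 149, ?_⟩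
  intro a b m hb h
  obtain ⟨n, d, n1, -, -, d1, d2, d3, d4⟩ := hB a b m (le_trans (le_max_left _ _) hb) h
  have hb149 : 149 ≤ b := le_trans (le_max_right _ _) hb
  have h13 := thirteen h hb149
  have hab := h.hab
  rw [← hT, d3]
  have hnN1 : N1 ≤ n := le_trans (le_trans (le_max_left _ _) (le_max_left _ _)) n1
  have hnN2 : N2 ≤ n := le_trans (le_trans (le_max_right _ _) (le_max_left _ _)) n1
  have hn15 : 15 ≤ n := le_trans (le_max_right _ _) n1
  have hn15r : (15 : ℝ) ≤ n := by exact_mod_cast hn15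
  have hn0 : (0 : ℝ) < n := by linarith
  -- `d ^ 2` and `n`
  obtain ⟨A, hA⟩ : ∃ A : ℝ, A = (quot s n : ℝ) := ⟨_, rfl⟩
  have hAn : (2 * n + 1 : ℝ) ≤ A := by rw [hA]; exact_mod_cast quot_ge hs n
  have hAs : A * s = 4 * n + 2 := by rw [hA]; exact quot_real hs n
  rw [← hA] at d4
  have hSA : Real.sinh s / 6 * A = T * n + T / 2 := by
    have : A = (4 * n + 2) / s := by rw [eq_div_iff (by linarith)]; exact hAs
    rw [this, hT]
    field_simp
    ring
  have hd : |(d : ℝ) ^ 2 - T * n| ≤ C3 := by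
    have e : (d : ℝ) ^ 2 - T * n = ((d : ℝ) ^ 2 - Real.sinh s / 6 * (A + 2 / A)) + (T / 2 + Real.sinh s / 6 * (2 / A)) := by
      have : Real.sinh s / 6 * (A + 2 / A) = Real.sinh s / 6 * A + Real.sinh s / 6 * (2 / A) := by ring
      rw [this, hSA]
      ring
    rw [e]
    refine le_trans (abs_add_le _ _) ?_
    have hA31 : 2 / A ≤ 1 := by
      rw [div_le_one (by linarith)]
      linarith
    have hA30 : 0 ≤ 2 / A := by
      have : 0 < A := by linarith
      positivity
    have t1 : C / A ^ 3 ≤ C := by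
      apply div_le_self hC.le
      exact one_le_pow₀ (by linarith)
    have t2 : |T / 2 + Real.sinh s / 6 * (2 / A)| ≤ 3 := by
      rw [abs_of_nonneg (by positivity)]
      have : Real.sinh s / 6 * (2 / A) ≤ 1 * 1 := mul_le_mul (by linarith) hA31 hA30 (by norm_num)
      linarith
    linarith
  obtain ⟨hdl, hdu⟩ := abs_le.1 hd
  have hd0 : 1 ≤ d := by
    rcases Nat.eq_zero_or_pos d with h0 | h0
    · rw [h0, zero_mul] at d2
      omega
    · exact h0
  have hd1 : (1 : ℝ) ≤ d := by exact_mod_cast hd0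
  have hdn : (d : ℝ) ≤ (3 + C3) * n := by
    have h1 : (d : ℝ) ≤ (d : ℝ) ^ 2 := by nlinarith
    have h2 : T * n ≤ 3 * n := mul_le_mul_of_nonneg_right hT3 hn0.le
    have h3 : C3 ≤ C3 * n := by nlinarith
    linarith
  -- `log b` and `n`
  obtain ⟨k, hk⟩ : ∃ k, n = k + 1 := ⟨n - 1, by omega⟩
  have hkr : (n : ℝ) = k + 1 := by rw [hk]; push_cast; ring
  have hk14 : (14 : ℝ) ≤ k := by linarith
  have hkpos : (0 : ℝ) < k := by linarith
  have hf0 : (0 : ℝ) < (k.factorial : ℝ) := by exact_mod_cast Nat.factorial_pos k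
  have hlow : (k.factorial : ℝ) ≤ b := by
    have h1 := Q_lower hs k
    rw [← hk] at h1
    have h2 : (conv s n).2 ≤ d * (conv s n).2 := Nat.le_mul_of_pos_left _ hd0
    have h3 : k.factorial ≤ b := by omega
    exact_mod_cast h3
  have hbr : (149 : ℝ) ≤ b := by exact_mod_cast hb149
  have hup : (b : ℝ) ≤ 2 * ((3 + C3) * n) * (7 ^ k * (k.factorial : ℝ)) := by
    have h1 := Q_upper hs k
    rw [← hk] at h1
    have h2 : b ≤ 2 * (d * (conv s n).2) := by omega
    have h3 : (b : ℝ) ≤ 2 * ((d : ℝ) * ((conv s n).2 : ℝ)) := by exact_mod_cast h2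
    have h4 : ((conv s n).2 : ℝ) ≤ 7 ^ k * (k.factorial : ℝ) := by exact_mod_cast h1
    have h5 : (d : ℝ) * ((conv s n).2 : ℝ) ≤ ((3 + C3) * n) * (7 ^ k * (k.factorial : ℝ)) :=
      mul_le_mul hdn h4 (Nat.cast_nonneg _) (by positivity)
    linarith
  have hx : |Real.log b - n * Real.log n| ≤ (2 * (3 + C3) + 3) * n := by
    rw [hkr] at hup ⊢
    exact log_close (by omega) (by linarith) hlow hup
  have hr := hN1 n hnN1 _ hx
  obtain ⟨x, hxd⟩ : ∃ x : ℝ, x = Real.log b := ⟨_, rfl⟩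
  rw [← hxd] at hr ⊢
  obtain ⟨r, hrd⟩ : ∃ r : ℝ, r = n * Real.log x / x := ⟨_, rfl⟩
  rw [← hrd] at hr
  have e1 : (d : ℝ) ^ 2 * Real.log x / x - T = ((d : ℝ) ^ 2 - T * n) / n * r + T * (r - 1) := by
    rw [hrd]
    field_simp
    ring
  rw [e1]
  refine le_trans (abs_add_le _ _) ?_
  rw [abs_mul, abs_mul, abs_div, abs_of_pos hn0, abs_of_pos hT0]
  have hr2 : |r| ≤ 2 := by
    have : |r| ≤ |r - 1| + |(1 : ℝ)| := by
      have e : r = (r - 1) + 1 := by ring
      conv_lhs => rw [e]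
      exact abs_add_le _ _
    rw [abs_one] at this
    linarith
  have t1 : |(d : ℝ) ^ 2 - T * n| / n * |r| ≤ ε / 2 := by
    have h1 : |(d : ℝ) ^ 2 - T * n| / n ≤ ε / 4 := by
      rw [div_le_iff₀ hn0]
      have h2 : 4 * C3 / ε ≤ n := le_trans hN2 (by exact_mod_cast hnN2)
      rw [div_le_iff₀ hε] at h2
      linarith
    have h2 : |(d : ℝ) ^ 2 - T * n| / n * |r| ≤ ε / 4 * 2 := mul_le_mul h1 hr2 (abs_nonneg _) (by linarith)
    linarith
  have t2 : T * |r - 1| ≤ ε / 2 := by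
    have h1 : T * |r - 1| ≤ 3 * (ε / 6) := mul_le_mul hT3 (le_trans hr hε'2) (abs_nonneg _) (by norm_num)
    linarith
  linarith

end Pool.Agent.UCF
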